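import Pool.Agent.H67Mid.Ex
import Pool.Agent.N113.ME.Core

set_option autoImplicit false
set_option linter.unusedSectionVars false
set_option linter.unusedVariables false

/-!
# Abelian varieties of middle exterior type
-/

open Module Function TensorProduct Matrix

noncomputable section

namespace Pool.Agent.H67M

open Pool.Agent.Y102 Pool.Agent.W516.DR Pool.Agent.H204R3.GP Pool.Agent.W516.KC
  Pool.Agent.H204R3.SP Pool.Agent.R918

variable {g k m N : ℕ} {A : AbVar g} {a b : Fin k → Fin (2 * m) → Matrix (Fin N) (Fin N) ℂ}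
  {P' : Matrix (Fin (2 * g)) (Fin N) ℂ} {Q' : Matrix (Fin N) (Fin (2 * g)) ℂ}

/-- The complex Lie algebra of an abelian variety of middle exterior type. -/
theorem mid_of
    (haa : ∀ σ i τ j, a σ i * a τ j = -(a τ j * a σ i))
    (hbb : ∀ σ i τ j, b σ i * b τ j = -(b τ j * b σ i))
    (hab : ∀ σ i τ j, a σ i * b τ j + b τ j * a σ i = if σ = τ ∧ i = j then 1 else 0)
    (hPQ : P' * Q' = 1)
    (hQ : ∀ v, (∃ w, v = Q'.mulVec w) ↔ ∀ σ, (quant a b σ 1).mulVec v = (m : ℂ) • v)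
    (hle : Submodule.span ℂ {Y | ∃ X ∈ A.NA, Y = toC X} ≤
      Submodule.span ℂ {Y | ∃ σ x, Matrix.trace x = 0 ∧ Y = P' * quant a b σ x * Q'})
    (hgen : ∀ σ i j, P' * (a σ i * b σ j) * Q' ∈
      Algebra.adjoin ℂ (Submodule.span ℂ {Y | ∃ X ∈ A.NA, Y = toC X} :
        Set (Matrix (Fin (2 * g)) (Fin (2 * g)) ℂ))) : MidK A.NA k m := by
  have hcar := car_opl haa hbb hab
  have hms := midSet_of (P := P') (Q := Q') rfl hPQ hQ
  refine ⟨N, opl a, opl b, PP P', QQ Q', hcar, hms, ?_⟩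
  rcases subsingleton_or_nontrivial (ℂ ⊗[ℚ] A.H1) with hs | hnt
  · ext x
    have hx : x = 0 := LinearMap.ext fun v => Subsingleton.elim _ _
    rw [hx]
    exact ⟨fun _ => Submodule.zero_mem _, fun _ => Submodule.zero_mem _⟩
  have h1 : cx A.NA ≤ slC (opl a) (opl b) (PP P') (QQ Q') := by
    rw [← map_lie, ← slC_eq]
    exact Submodule.map_mono hle
  have h2 : ∀ σ i j, R918.cmp (PP P') (QQ Q') (opl a (σ, i) * opl b (σ, j)) ∈
      Algebra.adjoin ℂ (cx A.NA : Set (Module.End ℂ (ℂ ⊗[ℚ] A.H1))) := by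
    intro σ i j
    have h3 : opl a (σ, i) * opl b (σ, j) = Matrix.toLinAlgEquiv' (a σ i * b σ j) := by
      rw [map_mul]
      rfl
    rw [h3, cmp_PQ, ← map_lie]
    have h1 : ∀ x ∈ Algebra.adjoin ℂ
        (Submodule.span ℂ {Y | ∃ X ∈ A.NA, Y = toC X} : Set (Matrix (Fin (2 * g)) (Fin (2 * g)) ℂ)),
        matE (2 * g) x ∈ Algebra.adjoin ℂ ((Submodule.span ℂ {Y | ∃ X ∈ A.NA, Y = toC X}).map
          (matE (2 * g)).toLinearMap : Set (Module.End ℂ (ℂ ⊗[ℚ] A.H1))) := by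
      intro x hx
      induction hx using Algebra.adjoin_induction with
      | mem x hx => exact Algebra.subset_adjoin ⟨x, hx, rfl⟩
      | algebraMap r =>
        rw [AlgEquiv.commutes]
        exact Subalgebra.algebraMap_mem _ r
      | add x y _ _ hx hy => rw [map_add]; exact Subalgebra.add_mem _ hx hy
      | mul x y _ _ hx hy => rw [map_mul]; exact Subalgebra.mul_mem _ hx hy
    exact h1 _ (hgen σ i j)
  exact N113.ME.eq_slC rfl hcar hms h1 h2

/-- All the properties which are used. -/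
theorem nice_of
    (haa : ∀ σ i τ j, a σ i * a τ j = -(a τ j * a σ i))
    (hbb : ∀ σ i τ j, b σ i * b τ j = -(b τ j * b σ i))
    (hab : ∀ σ i τ j, a σ i * b τ j + b τ j * a σ i = if σ = τ ∧ i = j then 1 else 0)
    (hPQ : P' * Q' = 1)
    (hQ : ∀ v, (∃ w, v = Q'.mulVec w) ↔ ∀ σ, (quant a b σ 1).mulVec v = (m : ℂ) • v)
    (hle : Submodule.span ℂ {Y | ∃ X ∈ A.NA, Y = toC X} ≤
      Submodule.span ℂ {Y | ∃ σ x, Matrix.trace x = 0 ∧ Y = P' * quant a b σ x * Q'})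
    (hgen : ∀ σ i j, P' * (a σ i * b σ j) * Q' ∈
      Algebra.adjoin ℂ (Submodule.span ℂ {Y | ∃ X ∈ A.NA, Y = toC X} :
        Set (Matrix (Fin (2 * g)) (Fin (2 * g)) ℂ)))
    (hni : 2 ≤ k → N192.GP.NoIdeals A.NA) : Nice A k m := by
  obtain ⟨hf, hp⟩ := N113.ME.rigid_of_middle (A := A) haa hbb hab hPQ hQ hle hgen
  have hmid := mid_of (A := A) haa hbb hab hPQ hQ hle hgen
  refine ⟨hf, hp, hmid, ?_⟩
  by_cases hk : 2 ≤ k
  · exact hni hk
  · exact hmid.noIdeals (by omega)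

end Pool.Agent.H67M
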