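import Pool.Agent.H67Mid.Gd

set_option autoImplicit false
set_option linter.unusedSectionVars false
set_option linter.unusedVariables false

/-!
# The exceptional abelian varieties for a given structure
-/

open Module Function TensorProduct

noncomputable section

namespace Pool.Agent.H67M

open Pool.Agent.Y102 Pool.Agent.W516.DR Pool.Agent.H204R3.GP Pool.Agent.W516.KC
  Pool.Agent.H204R3.SP Pool.Agent.N192.GP

section Trace

variable {T : Type} [Fintype T] [DecidableEq T] {n : T → ℕ}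
  (η : ∀ t, Basis (Fin (n t)) ℂ ((Fin (n t) → ℚ) →ₗ[ℚ] ℂ))

/-- The elements whose action on the member `u` has trace zero. -/
def tr0 (n : T → ℕ) (u : T) : Submodule ℚ (RR n) :=
  LinearMap.ker ((LinearMap.trace ℚ (Fin (n u) → ℚ)) ∘ₗ (LinearMap.proj u) ∘ₗ
    (LinearMap.fst ℚ (∀ t, Module.End ℚ (Fin (n t) → ℚ)) ℚ))

theorem mem_tr0 {u : T} {x : RR n} :
    x ∈ tr0 n u ↔ LinearMap.trace ℚ (Fin (n u) → ℚ) (x.1 u) = 0 := Iff.rfl

theorem br_tr0 {u : T} (x y : RR n) : x * y - y * x ∈ tr0 n u := by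
  rw [mem_tr0]
  change LinearMap.trace ℚ (Fin (n u) → ℚ) (x.1 u * y.1 u - y.1 u * x.1 u) = 0
  rw [map_sub, LinearMap.trace_mul_comm, sub_self]

theorem idl_tr0 (u : T) : Idl (LG η ⊓ tr0 n u) (LG η) :=
  ⟨inf_le_left, fun x hx y hy => ⟨LG_br η x hx y hy.1, br_tr0 x y⟩⟩

variable {η}

theorem sep_tr0 {s u : T} (hperf : gg η s ≤ brk (gg η s) (gg η s)) :
    gg η s ≤ (LG η ⊓ tr0 n u).map (pr s) :=
  step (pr_hm s (LG η)) hperf le_rfl le_rfl le_rfl le_rfl fun x hx y hy =>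
    ⟨LG_br η x hx y hy, br_tr0 x y⟩

theorem finrank_ker_trace (d : ℕ) :
    finrank ℚ (LinearMap.ker (LinearMap.trace ℚ (Fin d → ℚ))) ≤ d ^ 2 - 1 := by
  have h1 := LinearMap.finrank_range_add_finrank_ker (LinearMap.trace ℚ (Fin d → ℚ))
  rw [Module.finrank_linearMap, Module.finrank_fin_fun, ← sq] at h1
  rcases Nat.eq_zero_or_pos d with hd | hd
  · subst hd
    have h2 : (0 : ℕ) ^ 2 = 0 := rfl
    rw [h2] at h1
    omega
  · have h2 : 0 < finrank ℚ (LinearMap.range (LinearMap.trace ℚ (Fin d → ℚ))) := by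
      rw [Module.finrank_pos_iff]
      refine ⟨⟨⟨_, ⟨1, rfl⟩⟩, 0, fun h => ?_⟩⟩
      have h3 : LinearMap.trace ℚ (Fin d → ℚ) 1 = 0 := congrArg Subtype.val h
      rw [LinearMap.trace_one, Module.finrank_fin_fun] at h3
      exact hd.ne' (by exact_mod_cast h3)
    omega

/-- **Several members which are not separated from the member `u`.** -/
theorem sum_dim {S : Finset T} {u : T} (hperf : ∀ s ∈ S, gg η s ≤ brk (gg η s) (gg η s))
    (hni : ∀ s ∈ S, NoIdeals (gg η s))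
    (hsep : ∀ s ∈ S, ∀ t ∈ S, s ≠ t → Sep η s t) (hnot : ∀ s ∈ S, ¬Sep η s u) :
    ∑ s ∈ S, finrank ℚ (gg η s) ≤ n u ^ 2 - 1 := by
  classical
  -- the separation of the members of `S` from each other
  have hlift : ∀ s ∈ S, gg η s ≤ (LG η ⊓ ⨅ t ∈ S, if t = s then
      (LG η ⊓ tw0) ⊓ (LG η ⊓ tr0 n u) else (LG η ⊓ at0 t)).map (pr s) := by
    intro s hs
    have h1 : ∀ t, Idl (if t = s then (LG η ⊓ tw0) ⊓ (LG η ⊓ tr0 n u) else LG η ⊓ at0 t)
        (LG η) := by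
      intro t
      by_cases ht : t = s
      · simp only [if_pos ht]
        exact ⟨inf_le_left.trans inf_le_left, fun x hx y hy =>
          ⟨(idl_tw0 η).2 x hx y hy.1, (idl_tr0 η u).2 x hx y hy.2⟩⟩
      · simp only [if_neg ht]
        exact idl_at0 η t
    refine ribet (pr_hm s (LG η)) (hperf s hs) le_rfl h1 S fun t ht => ?_
    by_cases hts : t = s
    · simp only [if_pos hts]
      exact step (pr_hm s (LG η)) (hperf s hs) inf_le_left inf_le_left
        (sep_tw0 rfl (hperf s hs)) (sep_tr0 (u := u) (hperf s hs)) fun x hx y hy =>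
          ⟨⟨LG_br η x hx.1 y hy.1, br_snd x y⟩, ⟨LG_br η x hx.1 y hy.1, br_tr0 x y⟩⟩
    · simp only [if_neg hts]
      exact hsep s hs t ht (Ne.symm hts)
  -- the kernel
  have hker0 : ∀ s ∈ S, ∀ ℓ ∈ LG η ⊓ tw0, ℓ.1 u = 0 → pr s ℓ = 0 := by
    intro s hs ℓ hℓ hu
    let I : Submodule ℚ (Module.End ℚ (Fin (n s) → ℚ)) := ((LG η ⊓ at0 u) ⊓ tw0).map (pr s)
    have hI : Idl I (gg η s) := by
      refine ⟨Submodule.map_mono (inf_le_left.trans inf_le_left), ?_⟩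
      rintro _ ⟨x, hx, rfl⟩ _ ⟨y, hy, rfl⟩
      exact ⟨x * y - y * x, ⟨(idl_at0 η u).2 x hx y hy.1, br_snd x y⟩,
        pr_hm s (LG η) x hx y hy.1.1⟩
    rcases hni s hs I hI with h0 | h0
    · have h1 : pr s ℓ ∈ I := ⟨ℓ, ⟨⟨hℓ.1, hu⟩, hℓ.2⟩, rfl⟩
      rwa [h0, Submodule.mem_bot] at h1
    · exfalso
      refine hnot s hs ?_
      unfold N192.GP.Sep
      rw [← h0]
      exact Submodule.map_mono inf_le_left
  let 𝔩 : Submodule ℚ (RR n) := (LG η ⊓ tw0) ⊓ (LG η ⊓ tr0 n u)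
  let q1 : RR n →ₗ[ℚ] (∀ s : S, Module.End ℚ (Fin (n s.1) → ℚ)) := LinearMap.pi fun s => pr s.1
  let q2 : RR n →ₗ[ℚ] Module.End ℚ (Fin (n u) → ℚ) := (LinearMap.proj u) ∘ₗ
    (LinearMap.fst ℚ (∀ t, Module.End ℚ (Fin (n t) → ℚ)) ℚ)
  have e1 := N192.GP.finrank_ker 𝔩 q1
  have e2 := N192.GP.finrank_ker 𝔩 q2
  have e3 : finrank ℚ (𝔩 ⊓ LinearMap.ker q2 : Submodule ℚ (RR n)) ≤
      finrank ℚ (𝔩 ⊓ LinearMap.ker q1 : Submodule ℚ (RR n)) := by
    refine Submodule.finrank_mono fun x hx => ⟨hx.1, ?_⟩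
    exact funext fun s => hker0 s.1 s.2 x hx.1.1 hx.2
  have e4 : finrank ℚ (𝔩.map q2) ≤ n u ^ 2 - 1 := by
    refine (Submodule.finrank_mono ?_).trans (finrank_ker_trace (n u))
    rintro _ ⟨x, hx, rfl⟩
    exact hx.2.2
  have e5 : ∑ s ∈ S, finrank ℚ (gg η s) ≤ finrank ℚ (𝔩.map q1) := by
    have hfr : ∀ s : S, Module.Free ℚ (gg η s.1) := fun s => Module.Free.of_divisionRing (K := ℚ) (V := gg η s.1)
    have h0 := Module.finrank_pi_fintype ℚ (M := fun s : S => gg η s.1)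
    rw [← Finset.sum_coe_sort S (fun s => finrank ℚ (gg η s)), ← h0]
    let f : (∀ s : S, gg η s.1) →ₗ[ℚ] 𝔩.map q1 :=
      { toFun := fun x => ⟨fun s => (x s).1, by
          have h1 : ∀ s : S, (Pi.single s (x s).1 : ∀ s : S, Module.End ℚ (Fin (n s.1) → ℚ)) ∈
              𝔩.map q1 := by
            intro s
            obtain ⟨ℓ, hℓ, h2⟩ := hlift s.1 s.2 (x s).2
            have h3 : ∀ t ∈ S, ℓ ∈ if t = s.1 then (LG η ⊓ tw0) ⊓ (LG η ⊓ tr0 n u)
                else (LG η ⊓ at0 t) := fun t ht =>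
              (Submodule.mem_iInf _).1 ((Submodule.mem_iInf _).1 hℓ.2 t) ht
            have h4 := h3 s.1 s.2
            rw [if_pos rfl] at h4
            refine ⟨ℓ, h4, funext fun t => ?_⟩
            change pr t.1 ℓ = _
            by_cases hts : t = s
            · subst hts
              rw [h2, Pi.single_eq_same]
            · rw [Pi.single_eq_of_ne hts]
              have h5 := h3 t.1 t.2
              rw [if_neg (fun h => hts (Subtype.ext h))] at h5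
              have h6 : ℓ.1 t.1 = 0 := h5.2
              have h7 : ℓ.2 = 0 := h4.1.2
              rw [pr_apply, h6, h7, zero_div, zero_smul, sub_zero]
          have h2 : (fun s => (x s).1 : ∀ s : S, Module.End ℚ (Fin (n s.1) → ℚ)) =
              ∑ s, Pi.single s (x s).1 := (Finset.univ_sum_single _).symm
          rw [h2]
          exact Submodule.sum_mem _ fun s _ => h1 s⟩
        map_add' := fun x y => rfl
        map_smul' := fun c x => rfl }
    refine LinearMap.finrank_le_finrank_of_injective (f := f) fun x y hxy => ?_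
    have h1 : (fun s => (x s).1 : ∀ s : S, Module.End ℚ (Fin (n s.1) → ℚ)) =
      fun s => (y s).1 := congrArg Subtype.val hxy
    exact funext fun s => Subtype.ext (congrFun h1 s)
  omega

end Trace

section

variable {I J : Type} [Fintype I] [DecidableEq I] [Fintype J] [DecidableEq J]
  {g : I → ℕ} {A : ∀ i, AbVar (g i)} {d : J → ℕ} {V : ∀ j, DRS (d j)}

/-- Linked members have homomorphisms. -/
theorem hom_of_linked {i i' : I} {k m k' m' : ℕ}
    (h : Linked (ηη A V) (Sum.inl i) (Sum.inl i')) (h1 : Nice (A i) k m)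
    (h2 : Nice (A i') k' m') (hn : gg (ηη A V) (Sum.inl i) ≠ ⊥) :
    ∃ f : (A i).H1 →ₗ[ℚ] (A i').H1, f ≠ 0 ∧ IsHomAb (A i) (A i') f := by
  have hn1 : Nontrivial (ℂ ⊗[ℚ] (Fin (nn g d (Sum.inl i)) → ℚ)) := by
    by_contra hc
    exact hn (gg_bot hc)
  have hn2 : Nontrivial (ℂ ⊗[ℚ] (Fin (nn g d (Sum.inl i')) → ℚ)) := by
    by_contra hc
    exact hn (h.symm.bot (gg_bot hc))
  obtain ⟨f, hf, hf1⟩ := exists_f h h1.gg_mid h2.gg_mid
  have hdR := dR_of_NN (A := A) (V := V) (i := i) (i' := i') (f := f) (NN_of_f hf1)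
  exact ⟨f, hf, (A i).hodge_hom (A i') hdR, hdR⟩

/-- **The number of exceptional members.** -/
theorem exc_dim {k m : I → ℕ} (hn : ∀ i, Nice (A i) (k i) (m i))
    (hom : ∀ i i', i ≠ i' → ∀ f : (A i).H1 →ₗ[ℚ] (A i').H1, IsHomAb (A i) (A i') f → f = 0)
    {d : ℕ} (U : DRS d) (hU : ∀ i, ¬SepU ⟨2 * g i, DA A i⟩ ⟨d, U⟩) :
    ∑ i, k i * (4 * m i ^ 2 - 1) ≤ d ^ 2 - 1 := by
  let V : Unit → DRS d := fun _ => U
  have hsep : ∀ i i' : I, i ≠ i' → N192.GP.Sep (ηη A V) (Sum.inl i) (Sum.inl i') := by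
    intro i i' hne
    rcases link_or_sep ((hn i).gg_ni (V := V)) ((hn i').gg_ni (V := V))
      ((hn i).gg_perf (V := V)) with h | h
    swap
    · exact h
    by_cases hb : gg (ηη A V) (Sum.inl i) = ⊥
    · unfold N192.GP.Sep
      rw [hb]
      exact bot_le
    obtain ⟨f, hf, hf1⟩ := hom_of_linked h (hn i) (hn i') hb
    exact absurd (hom i i' hne f hf1) hf
  have hnot : ∀ i : I, ¬N192.GP.Sep (ηη A V) (Sum.inl i) (Sum.inr ()) := fun i h =>
    hU i (sepU_of_final (V := V) h)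
  have h1 := sum_dim (η := ηη A V) (S := Finset.univ.map ⟨Sum.inl, Sum.inl_injective⟩)
    (u := Sum.inr ())
    (fun s hs => by
      obtain ⟨i, -, rfl⟩ := Finset.mem_map.1 hs
      exact (hn i).gg_perf (V := V))
    (fun s hs => by
      obtain ⟨i, -, rfl⟩ := Finset.mem_map.1 hs
      exact (hn i).gg_ni (V := V))
    (fun s hs t ht hst => by
      obtain ⟨i, -, rfl⟩ := Finset.mem_map.1 hs
      obtain ⟨i', -, rfl⟩ := Finset.mem_map.1 ht
      exact hsep i i' fun h => hst (by rw [h]))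
    (fun s hs => by
      obtain ⟨i, -, rfl⟩ := Finset.mem_map.1 hs
      exact hnot i)
  rw [Finset.sum_map] at h1
  refine (Finset.sum_le_sum fun i _ => ?_).trans h1
  have hnt : Nontrivial (ℂ ⊗[ℚ] (Fin (nn g (fun _ : Unit => d) (Sum.inl i)) → ℚ)) := by
    by_contra hc
    refine hnot i ?_
    unfold N192.GP.Sep
    rw [gg_bot hc]
    exact bot_le
  exact ((hn i).gg_mid (V := V)).dim

end

section CM

variable {T : Type} [Fintype T] [DecidableEq T] {n : T → ℕ}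
  {η : ∀ t, Basis (Fin (n t)) ℂ ((Fin (n t) → ℚ) →ₗ[ℚ] ℂ)}

theorem sep_cm {s t : T} (hperf : gg η s ≤ brk (gg η s) (gg η s))
    (h1 : ∀ X Y : Module.End ℚ (Fin (n t) → ℚ),
      (∀ P, IsDeRhamBettiEnd QBar (η t : Fin (n t) → ((Fin (n t) → ℚ) →ₗ[ℚ] ℂ)) P →
        X * P = P * X) →
      (∀ P, IsDeRhamBettiEnd QBar (η t : Fin (n t) → ((Fin (n t) → ℚ) →ₗ[ℚ] ℂ)) P →
        Y * P = P * Y) → X * Y = Y * X) : N192.GP.Sep η s t := by
  refine sep_comm rfl hperf fun x hx y hy => ?_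
  have key : ∀ x ∈ LG η, ∀ P : Module.End ℚ (Fin (n t) → ℚ),
      IsDeRhamBettiEnd QBar (η t : Fin (n t) → ((Fin (n t) → ℚ) →ₗ[ℚ] ℂ)) P →
      x.1 t * P = P * x.1 t := by
    intro x hx P hP
    have h2 : LG η ≤ cent t P := LG_le _ (cent_br t P) fun D lam => NN_comm_end (η t) hP D lam
    exact h2 hx
  exact h1 _ _ (key x hx) (key y hy)

/-- Structures of CM type. -/
theorem sepU_cm {s V : UU} (hperf : ggU s ≤ brk (ggU s) (ggU s))
    (h1 : ∀ X Y : Module.End ℚ (Fin V.1 → ℚ),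
      (∀ P, IsDeRhamBettiEnd QBar V.2.eta P → X * P = P * X) →
      (∀ P, IsDeRhamBettiEnd QBar V.2.eta P → Y * P = P * Y) → X * Y = Y * X) : SepU s V := by
  refine sepU_of_pair (sep_cm ?_ ?_)
  · rw [pair_gg]
    exact hperf
  · change ∀ X Y : Module.End ℚ (Fin V.1 → ℚ),
      (∀ P, IsDeRhamBettiEnd QBar (V.2.basis : Fin V.1 → ((Fin V.1 → ℚ) →ₗ[ℚ] ℂ)) P →
        X * P = P * X) →
      (∀ P, IsDeRhamBettiEnd QBar (V.2.basis : Fin V.1 → ((Fin V.1 → ℚ) →ₗ[ℚ] ℂ)) P →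
        Y * P = P * Y) → X * Y = Y * X
    rw [V.2.coe_basis]
    exact h1

end CM

end Pool.Agent.H67M
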