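import Pool.Agent.H67Mid.Nid

set_option autoImplicit false
set_option linter.unusedSectionVars false
set_option linter.unusedVariables false

/-!
# The complex structure of a product of abelian varieties of middle exterior type
-/

open Module Function TensorProduct Matrix

noncomputable section

namespace Pool.Agent.H67M

open Pool.Agent.Y102 Pool.Agent.W516.DR Pool.Agent.H204R3.GP Pool.Agent.W516.KC
  Pool.Agent.H204R3.SP Pool.Agent.TH119.MX
open Pool.Agent.N192.GP hiding XX QQ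
open Pool.Agent.N192.GT
open Pool.Agent.R917 (QQ QA QQ_le_QA mem_QA lamF lamF_apply derQ hm hm_apply)

/-- The properties of the Lie algebra of an abelian variety which are used. -/
structure Nice {g : ℕ} (A : AbVar g) (k m : ℕ) : Prop where
  full : ∀ 𝔥 : Submodule ℚ (Module.End ℚ A.H1), A.Full 𝔥 → A.NA ≤ 𝔥
  perf : A.NA ≤ brk A.NA A.NA
  mid : MidK A.NA k m
  ni : NoIdeals A.NA

variable {I J : Type} [Fintype I] [DecidableEq I] [Fintype J] [DecidableEq J]
  {g : I → ℕ} {d : J → ℕ} {A : ∀ i, AbVar (g i)} {V : ∀ j, DRS (d j)} {k m : I → ℕ}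

theorem Nice.gg {i : I} {k m : ℕ} (h : Nice (A i) k m) :
    gg (ηη A V) (Sum.inl i) = ((A i).NA : Submodule ℚ (Module.End ℚ (A i).H1)) := by
  have h1 := gg_full A V i
  exact le_antisymm h1.le (h.full _ h1)

theorem Nice.gg_perf {i : I} {k m : ℕ} (h : Nice (A i) k m) :
    N192.GP.gg (ηη A V) (Sum.inl i) ≤
      brk (N192.GP.gg (ηη A V) (Sum.inl i)) (N192.GP.gg (ηη A V) (Sum.inl i)) := by
  rw [h.gg]
  exact h.perf

theorem Nice.gg_ni {i : I} {k m : ℕ} (h : Nice (A i) k m) :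
    NoIdeals (N192.GP.gg (ηη A V) (Sum.inl i)) := by
  rw [h.gg]
  exact h.ni

theorem Nice.gg_mid {i : I} {k m : ℕ} (h : Nice (A i) k m) :
    MidK (N192.GP.gg (ηη A V) (Sum.inl i)) k m := by
  rw [h.gg]
  exact h.mid

theorem Nice.ggU {i : I} {k m : ℕ} (h : Nice (A i) k m) :
    N192.GP.ggU ⟨2 * g i, DA A i⟩ = ((A i).NA : Submodule ℚ (Module.End ℚ (A i).H1)) := by
  rw [ggU_eq A (fun j : Empty => (j.elim : DRS (Empty.elim j)))]
  exact h.gg

/-- The conditions for the family. -/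
structure Gd (A : ∀ i, AbVar (g i)) (V : ∀ j, DRS (d j)) (k m : I → ℕ) : Prop where
  nice : ∀ i, Nice (A i) (k i) (m i)
  small : ∀ i j, Sep (ηη A V) (Sum.inl i) (Sum.inr j)

theorem Gd.perf (h : Gd A V k m) (s : I ⊕ J) (hs : isA s) :
    gg (ηη A V) s ≤ brk (gg (ηη A V) s) (gg (ηη A V) s) := by
  rcases s with i | j
  · exact (h.nice i).gg_perf
  · exact absurd hs (by simp [isA])

theorem Gd.dich (h : Gd A V k m) (s t : I ⊕ J) (hs : isA s) (ht : isA t) :
    Linked (ηη A V) s t ∨ Sep (ηη A V) s t := by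
  rcases s with i | j
  swap
  · exact absurd hs (by simp [isA])
  rcases t with i' | j
  swap
  · exact absurd ht (by simp [isA])
  exact link_or_sep (h.nice i).gg_ni (h.nice i').gg_ni (h.perf _ hs)

theorem Gd.sepV (h : Gd A V k m) (s t : I ⊕ J) (hs : isA s) (ht : ¬isA t) :
    Sep (ηη A V) s t := by
  rcases s with i | j
  swap
  · exact absurd hs (by simp [isA])
  rcases t with i' | j
  · exact absurd rfl ht
  exact h.small i j

/-- A linear map which commutes with the logarithmic derivatives is a homomorphism of the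
de Rham structures. -/
theorem dR_of_NN {i i' : I} {f : (A i).H1 →ₗ[ℚ] (A i').H1}
    (hf : ∀ (D : Derivation QBar ℂ ℂ) (lam : ℂ →ₗ[ℚ] ℚ),
      (NN (ηη A V (Sum.inl i')) D lam).comp f = f.comp (NN (ηη A V (Sum.inl i)) D lam)) :
    ∃ a : (Fin (g i') ⊕ Fin (g i')) → (Fin (g i) ⊕ Fin (g i)) → QBar,
      ∀ p w, (A i').dR p (f w) = ∑ q, algebraMap QBar ℂ (a p q) * (A i).dR q w := by
  obtain ⟨a, ha⟩ := hom_of_comm (ηη A V) (s := Sum.inl i) (t := Sum.inl i') hf
  refine ⟨fun p q => a (eqv (g i') p) (eqv (g i) q), fun p w => ?_⟩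
  have h1 : (A i').dR p (f w) = ηA A i' (eqv (g i') p) (f w) := by
    unfold ηA
    rw [Basis.reindex_apply, Equiv.symm_apply_apply, (A i').coe_basis]
  have h2 : ∀ q, ηA A i (eqv (g i) q) w = (A i).dR q w := by
    intro q
    unfold ηA
    rw [Basis.reindex_apply, Equiv.symm_apply_apply, (A i).coe_basis]
  have h3 : ηA A i' (eqv (g i') p) (f w) = ∑ q, algebraMap QBar ℂ (a (eqv (g i') p) q) *
      ηA A i q w := ha (eqv (g i') p) w
  refine h1.trans (h3.trans ?_)
  refine (Equiv.sum_comp (eqv (g i)) (fun q => algebraMap QBar ℂ (a (eqv (g i') p) q) *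
      ηA A i q w)).symm.trans ?_
  exact Finset.sum_congr rfl fun q _ => by rw [h2]

/-- The complex structure. -/
theorem Gd.J_mem (h : Gd A V k m) (lam : ℝ →ₗ[ℚ] ℚ) :
    ∃ X : ∀ t, Module.End ℚ (Fin (nn g d t) → ℚ), ((X, 0) : RR (nn g d)) ∈ LG (ηη A V) ∧
      (∀ i, X (Sum.inl i) = (A i).cmpE lam AbVar.JJ) ∧ ∀ j, X (Sum.inr j) = 0 := by
  let X : ∀ t, Module.End ℚ (Fin (nn g d t) → ℚ) := fun t => match t with
    | Sum.inl i => (A i).cmpE lam AbVar.JJ
    | Sum.inr j => 0
  have hXm : ∀ i, ∀ lam, ((A i).cmpE lam AbVar.JJ : Module.End ℚ (A i).H1) ∈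
      gg (ηη A V) (Sum.inl i) := by
    intro i lam
    rw [(h.nice i).gg]
    exact (A i).MA_le_NA ((A i).J_mem lam)
  refine ⟨X, compat_mem (a := isA) h.perf h.dich h.sepV ?_ ?_ ?_, fun i => rfl, fun j => rfl⟩
  · intro t ht
    rcases t with i | j
    · exact absurd rfl ht
    · rfl
  · intro t ht
    rcases t with i | j
    · exact hXm i lam
    · exact absurd ht (by simp [isA])
  · intro s t hs ht hst
    rcases s with i | j
    swap
    · exact absurd hs (by simp [isA])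
    rcases t with i' | j
    swap
    · exact absurd ht (by simp [isA])
    refine link_compat hst (h.nice i).gg_mid (h.nice i').gg_mid (h.nice i').gg_ni
      (Js := fun lam => (A i).cmpE lam AbVar.JJ) (Jt := fun lam => (A i').cmpE lam AbVar.JJ)
      (hXm i) (hXm i') (fun f hf lam => ?_) (fun f hf => J_zero (A i) (A i') hf) lam
    exact J_comp (A i) (A i') ((A i).hodge_hom (A i') (dR_of_NN hf)) lam

/-- The normalized parts. -/
theorem Gd.pr_mem (h : Gd A V k m) {ℓ : RR (nn g d)} (hℓ : ℓ ∈ LG (ηη A V)) :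
    ∃ X : ∀ t, Module.End ℚ (Fin (nn g d t) → ℚ), ((X, 0) : RR (nn g d)) ∈ LG (ηη A V) ∧
      (∀ i, X (Sum.inl i) = pr (Sum.inl i) ℓ) ∧ ∀ j, X (Sum.inr j) = 0 := by
  let X : ∀ t, Module.End ℚ (Fin (nn g d t) → ℚ) := fun t => match t with
    | Sum.inl i => pr (Sum.inl i) ℓ
    | Sum.inr j => 0
  refine ⟨X, compat_mem (a := isA) h.perf h.dich h.sepV ?_ ?_ ?_, fun i => rfl, fun j => rfl⟩
  · intro t ht
    rcases t with i | j
    · exact absurd rfl ht
    · rfl
  · intro t ht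
    rcases t with i | j
    · exact ⟨ℓ, hℓ, rfl⟩
    · exact absurd ht (by simp [isA])
  · intro s t hs ht hst
    rcases s with i | j
    swap
    · exact absurd hs (by simp [isA])
    rcases t with i' | j
    swap
    · exact absurd ht (by simp [isA])
    exact ⟨ℓ, hℓ, rfl⟩

/-! ### The group -/

variable {H : Set (Matrix (Row g d) (Row g d) ℂ)}

/-- The complex structure is in the Lie algebra of the group. -/
theorem stab_J (h : Gd A V k m) (hH : PtW (bR g d) (fR A V) H) (δ : ℕ) :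
    Stab H δ (rho A d Complex.I 0) := by
  classical
  obtain ⟨s, hs⟩ := R917.exists_coords (fun p : Σ i, Fin (2 * g i) × Fin (2 * g i) =>
    (A p.1).lam.repr (Complex.I • (A p.1).lam p.2.1) p.2.2)
  let f : Basis.ofVectorSpaceIndex ℚ ℝ → (ℝ →ₗ[ℚ] ℚ) := fun k => (Basis.ofVectorSpace ℚ ℝ).coord k
  choose X hX1 hX2 hX3 using fun k => h.J_mem (f k)
  have h1 : rho A d Complex.I 0 = ∑ k ∈ s, ((Basis.ofVectorSpace ℚ ℝ k : ℝ) : ℂ) •
      (tC (bR g d) (act (X k)))ᵀ := by
    ext a c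
    rw [Matrix.sum_apply]
    have h0 : ∀ k, (((Basis.ofVectorSpace ℚ ℝ k : ℝ) : ℂ) • (tC (bR g d) (act (X k)))ᵀ) a c =
        ((Basis.ofVectorSpace ℚ ℝ k : ℝ) : ℂ) *
          (((bR g d).repr (act (X k) (bR g d a)) c : ℚ) : ℂ) := by
      intro k
      rw [Matrix.smul_apply, Matrix.transpose_apply, tC_apply, smul_eq_mul]
    rw [Finset.sum_congr rfl fun k _ => h0 k]
    rcases a with ⟨i, p⟩ | ⟨j, p⟩ <;> rcases c with ⟨i', q⟩ | ⟨j', q⟩
    · unfold rho
      rw [fromBlocks_apply₁₁]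
      by_cases hii : i = i'
      · subst hii
        rw [blockDiagonal'_apply_eq, hm_apply]
        have h3 := hs ⟨i, p, q⟩
        rw [h3]
        push_cast
        refine Finset.sum_congr rfl fun k _ => ?_
        rw [mul_comm, rep_same p q (hX2 k i), AbVar.cmpE_apply]
        congr 1
        have h5 : (A i).per (Pi.single p 1) = (A i).lam p := by
          have h6 := (A i).per_bas p
          unfold AbVar.bas at h6
          rwa [Pi.basisFun_apply] at h6
        rw [h5]
        rfl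
      · rw [blockDiagonal'_apply_ne _ _ _ hii]
        refine (Finset.sum_eq_zero fun k _ => ?_).symm
        rw [rep_ne (X k) hii, Rat.cast_zero, mul_zero]
    · unfold rho
      rw [fromBlocks_apply₁₂, Matrix.zero_apply]
      refine (Finset.sum_eq_zero fun k _ => ?_).symm
      rw [rep_lr, Rat.cast_zero, mul_zero]
    · unfold rho
      rw [fromBlocks_apply₂₁, Matrix.zero_apply]
      refine (Finset.sum_eq_zero fun k _ => ?_).symm
      rw [rep_rl, Rat.cast_zero, mul_zero]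
    · unfold rho
      rw [fromBlocks_apply₂₂, zero_smul, Matrix.zero_apply]
      refine (Finset.sum_eq_zero fun k _ => ?_).symm
      rw [rep_rr (hX3 k), Rat.cast_zero, mul_zero]
  rw [h1]
  exact stab_sumW s _ fun k _ => (PtW.LG_mem (ηη A V) (eR g d) (eR g d) hH (hX1 k) δ).smul _

/-- The group contains the circle. -/
theorem rho_mem (h : Gd A V k m) (hH : PtW (bR g d) (fR A V) H) {z : ℂ} (hz : ‖z‖ = 1) :
    rho A d z 1 ∈ H := by
  have h1 : Complex.exp (Complex.arg z * Complex.I) = z := by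
    have h2 := Complex.norm_mul_exp_arg_mul_I z
    rwa [hz, Complex.ofReal_one, one_mul] at h2
  rw [← h1, ← Complex.exp_zero, rho_exp]
  refine R917.exp_mem hH.grp fun δ => ?_
  have h3 : rho A d (Complex.arg z * Complex.I) 0 = (Complex.arg z : ℂ) • rho A d Complex.I 0 := by
    rw [← rho_real, mul_zero]
  rw [h3]
  exact (stab_J h hH δ).smul _

/-- The element which defines the weights. -/
theorem exists_weight (h : Gd A V k m) : ∃ ℓ ∈ LG (ηη A V), ∀ i,
    ℓ.1 (Sum.inl i) = (1 : Module.End ℚ (Fin (2 * g i) → ℚ)) := by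
  obtain ⟨D, lam, hne⟩ := R917.exists_der
  have h0 : tt D lam / 2 ≠ 0 := by
    have h1 : lam (D tau / (2 * tau)) = tt D lam / 2 := by
      unfold tt
      have h2 : D tau / (2 * tau) = (2⁻¹ : ℚ) • (D tau / tau) := by
        rw [Rat.smul_def]
        push_cast
        rw [mul_comm (2 : ℂ) tau, ← div_div, div_eq_mul_inv _ (2 : ℂ), mul_comm]
      rw [h2, map_smul, smul_eq_mul]
      ring
    rwa [h1] at hne
  obtain ⟨X, hX, h1, h2⟩ := h.pr_mem (gn_mem_LG _ D lam)
  refine ⟨(tt D lam / 2)⁻¹ • (gn (ηη A V) D lam - (X, 0)),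
    (LG (ηη A V)).smul_mem _ ((LG (ηη A V)).sub_mem (gn_mem_LG _ D lam) hX), fun i => ?_⟩
  have h3 : (tt D lam / 2)⁻¹ • ((gn (ηη A V) D lam).1 (Sum.inl i) - X (Sum.inl i)) =
      (1 : Module.End ℚ (Fin (nn g d (Sum.inl i)) → ℚ)) := by
    rw [h1 i, pr_apply, sub_sub_cancel, smul_smul]
    change ((tt D lam / 2)⁻¹ * (tt D lam / 2)) • (1 : Module.End ℚ (Fin (2 * g i) → ℚ)) = 1
    rw [inv_mul_cancel₀ h0, one_smul]
  exact h3

theorem stab_weight (h : Gd A V k m) (hH : PtW (bR g d) (fR A V) H) :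
    ∃ M : Matrix (Σ j, Fin (d j)) (Σ j, Fin (d j)) ℂ, ∀ δ,
      Stab H δ (fromBlocks (1 : Matrix (Σ i, Fin (2 * g i)) (Σ i, Fin (2 * g i)) ℂ) 0 0 M) := by
  obtain ⟨ℓ, hℓ, h1⟩ := exists_weight h
  refine ⟨((tC (bR g d) (act ℓ.1))ᵀ).toBlocks₂₂, fun δ => ?_⟩
  have h2 : (tC (bR g d) (act ℓ.1))ᵀ = fromBlocks
      (1 : Matrix (Σ i, Fin (2 * g i)) (Σ i, Fin (2 * g i)) ℂ) 0 0
      ((tC (bR g d) (act ℓ.1))ᵀ).toBlocks₂₂ := by
    ext a c
    rcases a with ⟨i, p⟩ | ⟨j, p⟩ <;> rcases c with ⟨i', q⟩ | ⟨j', q⟩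
    · rw [fromBlocks_apply₁₁, Matrix.transpose_apply, tC_apply]
      by_cases hii : i = i'
      · subst hii
        rw [rep_same p q (h1 i), Module.End.one_apply, Matrix.one_apply, Pi.single_apply]
        by_cases hpq : p = q
        · subst hpq
          rw [if_pos rfl, if_pos rfl, Rat.cast_one]
        · rw [if_neg (Ne.symm hpq), if_neg, Rat.cast_zero]
          intro h'
          exact hpq (eq_of_heq (Sigma.mk.inj h').2)
      · rw [rep_ne ℓ.1 hii, Matrix.one_apply_ne, Rat.cast_zero]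
        intro h'
        exact hii (Sigma.mk.inj h').1
    · rw [fromBlocks_apply₁₂, Matrix.transpose_apply, tC_apply, rep_lr, Rat.cast_zero,
        Matrix.zero_apply]
    · rw [fromBlocks_apply₂₁, Matrix.transpose_apply, tC_apply, rep_rl, Rat.cast_zero,
        Matrix.zero_apply]
    · rfl
  have h3 := PtW.LG_mem (ηη A V) (eR g d) (eR g d) hH hℓ δ
  have h4 : ∀ Z : Matrix (Row g d) (Row g d) ℂ, (tC (bR g d) (act ℓ.1))ᵀ = Z → Stab H δ Z := by
    rintro _ rfl
    exact h3
  exact h4 _ h2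

/-- The image of the Deligne torus. -/
theorem torus_mem (h : Gd A V k m) (hH : PtW (bR g d) (fR A V) H) {z : ℂ} (hz : z ≠ 0) :
    ∃ v : Matrix (Σ j, Fin (d j)) (Σ j, Fin (d j)) ℂ,
      fromBlocks (blockDiagonal' fun i => hm (A i) z) 0 0 v ∈ H := by
  obtain ⟨M, hM⟩ := stab_weight h hH
  have h1 : blockDiagonal' (fun i => hm (A i) (Complex.log z)) =
      ((Complex.log z).re : ℂ) • (1 : Matrix (Σ i, Fin (2 * g i)) (Σ i, Fin (2 * g i)) ℂ) +
        ((Complex.log z).im : ℂ) • blockDiagonal' fun i => hm (A i) Complex.I := by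
    rw [← blockDiagonal'_one, ← blockDiagonal'_smul, ← blockDiagonal'_smul,
      ← blockDiagonal'_add]
    congr 1
    funext i
    exact R917.hm_eq (A i) (Complex.log z)
  refine ⟨NormedSpace.exp (((Complex.log z).re : ℂ) • M), ?_⟩
  rw [← Complex.exp_log hz, ← exp_bd A d, ← exp_fb, Complex.exp_log hz, h1]
  refine R917.exp_mem hH.grp fun δ => ?_
  have h2 : fromBlocks (((Complex.log z).re : ℂ) •
      (1 : Matrix (Σ i, Fin (2 * g i)) (Σ i, Fin (2 * g i)) ℂ) +
        ((Complex.log z).im : ℂ) • blockDiagonal' fun i => hm (A i) Complex.I) 0 0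
        (((Complex.log z).re : ℂ) • M) =
      ((Complex.log z).re : ℂ) • fromBlocks 1 0 0 M +
        ((Complex.log z).im : ℂ) • rho A d Complex.I 0 := by
    unfold rho
    rw [fromBlocks_smul, fromBlocks_smul, fromBlocks_add]
    simp only [zero_smul, smul_zero, add_zero]
  rw [h2]
  exact ((hM δ).smul _).add ((stab_J h hH δ).smul _)

end Pool.Agent.H67M
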