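import Pool.Agent.H67Mid.Wt

set_option autoImplicit false
set_option linter.unusedSectionVars false
set_option linter.unusedVariables false

/-!
# Representations of a sum of Lie algebras `sl(n)` in which certain elements are involutions: the
# intertwining map
-/

open Module

noncomputable section

namespace Pool.Agent.H67M

open Pool.Agent.R918

variable {k n : ℕ}

/-- lower triangular -/
def Lo (M : Matrix (Fin k × Fin n) (Fin k × Fin n) ℂ) : Prop := ∀ p q, M p q ≠ 0 → q.2 < p.2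

/-- upper triangular -/
def Up (M : Matrix (Fin k × Fin n) (Fin k × Fin n) ℂ) : Prop := ∀ p q, M p q ≠ 0 → p.2 ≤ q.2

/-- the lower part -/
def lo (M : Matrix (Fin k × Fin n) (Fin k × Fin n) ℂ) :
    Matrix (Fin k × Fin n) (Fin k × Fin n) ℂ := Matrix.of fun p q => if q.2 < p.2 then M p q else 0

theorem lo_apply (M : Matrix (Fin k × Fin n) (Fin k × Fin n) ℂ) (p q : Fin k × Fin n) :
    lo M p q = if q.2 < p.2 then M p q else 0 := rfl

theorem lo_Lo (M : Matrix (Fin k × Fin n) (Fin k × Fin n) ℂ) : Lo (lo M) := by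
  intro p q h
  by_contra hcon
  rw [lo_apply, if_neg hcon] at h
  exact h rfl

theorem lo_mem {M : Matrix (Fin k × Fin n) (Fin k × Fin n) ℂ} (h : M ∈ SL k n) :
    lo M ∈ SL k n := by
  refine ⟨fun p q hpq => ?_, fun σ => ?_⟩
  · rw [lo_apply, h.1 p q hpq, ite_self]
  · rw [btr_sum]
    refine Finset.sum_eq_zero fun i _ => ?_
    rw [lo_apply, if_neg (lt_irrefl _)]

theorem up_Up (M : Matrix (Fin k × Fin n) (Fin k × Fin n) ℂ) : Up (M - lo M) := by
  intro p q h
  by_contra hcon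
  rw [Matrix.sub_apply, lo_apply, if_pos (not_le.1 hcon), sub_self] at h
  exact h rfl

theorem expand {M : Matrix (Fin k × Fin n) (Fin k × Fin n) ℂ} (h : M ∈ SL k n) :
    M = ∑ p, ∑ q, if p = q then (M p p / 2) • iv p else M p q • un p q := by
  ext a b
  simp only [Matrix.sum_apply]
  have h1 : ∀ p q : Fin k × Fin n, (if p = q then (M p p / 2) • iv p else M p q • un p q) a b =
      (if p = q then (M p p / 2) * iv p a b else M p q * un p q a b) := by
    intro p q
    split_ifs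
    · rw [Matrix.smul_apply, smul_eq_mul]
    · rw [Matrix.smul_apply, smul_eq_mul]
  simp only [h1]
  by_cases hab : a = b
  · subst hab
    have h2 : ∀ p q : Fin k × Fin n, (if p = q then (M p p / 2) * iv p a a else
        M p q * un p q a a) = if p = q then (M p p / 2) * iv p a a else 0 := by
      intro p q
      by_cases hpq : p = q
      · rw [if_pos hpq, if_pos hpq]
      · rw [if_neg hpq, if_neg hpq, un_apply, if_neg, mul_zero]
        rintro ⟨h3, h4⟩
        exact hpq (h3.symm.trans h4)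
    simp only [h2, Finset.sum_ite_eq, Finset.mem_univ, if_true]
    have hn : (n : ℂ) ≠ 0 := by
      have := a.2.2
      exact_mod_cast (by omega : n ≠ 0)
    have h3 : ∀ p : Fin k × Fin n, M p p / 2 * iv p a a =
        (if a = p then M p p else 0) - (1 / n) * (if p.1 = a.1 then M p p else 0) := by
      intro p
      rw [iv_apply]
      by_cases h4 : a = p
      · subst h4
        simp
        field_simp
      · rw [if_neg (fun h5 => h4 h5.1), if_neg h4]
        by_cases h5 : p.1 = a.1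
        · rw [if_pos ⟨rfl, h5.symm⟩, if_pos h5]
          ring
        · rw [if_neg (fun h6 => h5 h6.2.symm), if_neg h5]
          ring
    simp only [h3, Finset.sum_sub_distrib, Finset.sum_ite_eq, Finset.mem_univ, if_true,
      ← Finset.mul_sum]
    have h4 : ∑ p : Fin k × Fin n, (if p.1 = a.1 then M p p else 0) = 0 := by
      have h5 := h.2 a.1
      rw [btr_sum] at h5
      rw [Fintype.sum_prod_type, Finset.sum_eq_single a.1]
      · simpa using h5
      · intro τ _ hτ
        exact Finset.sum_eq_zero fun i _ => if_neg hτ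
      · intro h; exact absurd (Finset.mem_univ _) h
    rw [h4, mul_zero, sub_zero]
  · have h2 : ∀ p q : Fin k × Fin n, (if p = q then (M p p / 2) * iv p a b else
        M p q * un p q a b) = if p = a ∧ q = b then M a b else 0 := by
      intro p q
      by_cases hpq : p = q
      · rw [if_pos hpq, iv_apply, if_neg (fun h3 => hab (h3.1.trans h3.2.symm)),
          if_neg (fun h3 => hab h3.1), if_neg]
        · ring
        · rintro ⟨h3, h4⟩
          exact hab (h3.symm.trans (hpq.trans h4))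
      · rw [if_neg hpq, un_apply]
        by_cases h3 : a = p ∧ b = q
        · obtain ⟨rfl, rfl⟩ := h3
          rw [if_pos ⟨rfl, rfl⟩, if_pos ⟨rfl, rfl⟩, mul_one]
        · rw [if_neg h3, if_neg fun h4 => h3 ⟨h4.1.symm, h4.2.symm⟩, mul_zero]
    simp only [h2]
    rw [Finset.sum_eq_single a, Finset.sum_eq_single b]
    · rw [if_pos ⟨rfl, rfl⟩]
    · intro q _ hq
      exact if_neg fun h3 => hq h3.2
    · intro h; exact absurd (Finset.mem_univ _) h
    · intro p _ hp
      exact Finset.sum_eq_zero fun q _ => if_neg fun h3 => hp h3.1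
    · intro h; exact absurd (Finset.mem_univ _) h

section Rep

variable {U : Type} [AddCommGroup U] [Module ℂ U]
  {ρ : Matrix (Fin k × Fin n) (Fin k × Fin n) ℂ →ₗ[ℂ] Module.End ℂ U}

theorem rep_expand {M : Matrix (Fin k × Fin n) (Fin k × Fin n) ℂ} (h : M ∈ SL k n) (u : U) :
    ρ M u = ∑ p, ∑ q, if p = q then (M p p / 2) • ρ (iv p) u else M p q • ρ (un p q) u := by
  conv_lhs => rw [expand h]
  rw [map_sum, LinearMap.sum_apply]
  refine Finset.sum_congr rfl fun p _ => ?_
  rw [map_sum, LinearMap.sum_apply]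
  refine Finset.sum_congr rfl fun q _ => ?_
  split_ifs
  · rw [map_smul, LinearMap.smul_apply]
  · rw [map_smul, LinearMap.smul_apply]

/-- The upper triangular matrices act by scalars on the highest weight vectors. -/
theorem Rp.up_top (h : Rp ρ) {m : ℕ} {M : Matrix (Fin k × Fin n) (Fin k × Fin n) ℂ}
    (hM : M ∈ SL k n) (hU : Up M) {G : Submodule ℂ U} (hG : ∀ u ∈ G, Wt ρ (top k n m) u) {u : U}
    (hu : u ∈ G) : ρ M u ∈ G := by
  rw [rep_expand hM]
  refine G.sum_mem fun p _ => G.sum_mem fun q _ => ?_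
  split_ifs with hpq
  · rw [hG u hu p]
    exact G.smul_mem _ (G.smul_mem _ hu)
  · by_cases h0 : M p q = 0
    · rw [h0, zero_smul]
      exact G.zero_mem
    · have hc : p.1 = q.1 := by
        by_contra hc
        exact h0 (hM.1 p q hc)
      have h1 : p.2 ≤ q.2 := hU p q h0
      have h2 : ρ (un p q) u = 0 := by
        refine h.kill (hG u hu) hpq hc ?_
        by_cases h3 : p ∈ top k n m
        · exact Or.inl h3
        · right
          rw [mem_top] at h3 ⊢
          have h4 : (p.2 : ℕ) ≤ q.2 := h1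
          omega
      rw [h2, smul_zero]
      exact G.zero_mem

/-- The height. -/
def hh (k n : ℕ) : Matrix (Fin k × Fin n) (Fin k × Fin n) ℂ :=
  ∑ p : Fin k × Fin n, (-(p.2 : ℕ) : ℂ) • iv p

/-- The height of the highest weight. -/
def h0 (k n m : ℕ) : ℂ :=
  ∑ p : Fin k × Fin n, (-(p.2 : ℕ) : ℂ) * (if p ∈ top k n m then (1 : ℂ) else -1)

theorem hh_apply (u : U) : ρ (hh k n) u = ∑ p, (-(p.2 : ℕ) : ℂ) • ρ (iv p) u := by
  unfold hh
  rw [map_sum, LinearMap.sum_apply]
  refine Finset.sum_congr rfl fun p _ => ?_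
  rw [map_smul, LinearMap.smul_apply]

theorem hh_top {m : ℕ} {u : U} (hu : Wt ρ (top k n m) u) : ρ (hh k n) u = h0 k n m • u := by
  rw [hh_apply]
  unfold h0
  rw [Finset.sum_smul]
  refine Finset.sum_congr rfl fun p _ => ?_
  rw [hu p, smul_smul]

theorem Rp.hh_un (h : Rp ρ) {p q : Fin k × Fin n} (hpq : p ≠ q) (hc : p.1 = q.1) (u : U) :
    ρ (hh k n) (ρ (un p q) u) = ρ (un p q) (ρ (hh k n) u) +
      (2 * ((q.2 : ℕ) : ℂ) - 2 * ((p.2 : ℕ) : ℂ)) • ρ (un p q) u := by
  rw [hh_apply, hh_apply, map_sum]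
  have h1 : ∀ r : Fin k × Fin n, (-(r.2 : ℕ) : ℂ) • ρ (iv r) (ρ (un p q) u) =
      ρ (un p q) ((-(r.2 : ℕ) : ℂ) • ρ (iv r) u) +
        ((if r = q then 2 * ((q.2 : ℕ) : ℂ) else 0) - (if r = p then 2 * ((p.2 : ℕ) : ℂ) else 0)) •
          ρ (un p q) u := by
    intro r
    rw [h.iv_un r hpq hc, smul_add, map_smul, smul_smul]
    congr 2
    by_cases h2 : r = p
    · subst h2
      rw [if_pos rfl, if_neg hpq, if_neg hpq, if_pos rfl]
      ring
    · by_cases h3 : r = q
      · subst h3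
        rw [if_neg h2, if_pos rfl, if_pos rfl, if_neg h2]
        ring
      · rw [if_neg h2, if_neg h3, if_neg h3, if_neg h2]
        ring
  rw [Finset.sum_congr rfl fun r _ => h1 r, Finset.sum_add_distrib, ← Finset.sum_smul,
    Finset.sum_sub_distrib, Finset.sum_ite_eq', Finset.sum_ite_eq', if_pos (Finset.mem_univ _),
    if_pos (Finset.mem_univ _)]

/-- The sum of the lower height spaces. -/
def Lw (ρ : Matrix (Fin k × Fin n) (Fin k × Fin n) ℂ →ₗ[ℂ] Module.End ℂ U) (m : ℕ) :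
    Submodule ℂ U :=
  Submodule.span ℂ {w | ∃ t : ℕ, 0 < t ∧ ρ (hh k n) w = (h0 k n m - t) • w}

theorem Rp.lo_eig (h : Rp ρ) {m : ℕ} {M : Matrix (Fin k × Fin n) (Fin k × Fin n) ℂ}
    (hM : M ∈ SL k n) (hL : Lo M) {t : ℕ} {w : U} (hw : ρ (hh k n) w = (h0 k n m - t) • w) :
    ρ M w ∈ Lw ρ m := by
  rw [rep_expand hM]
  refine Submodule.sum_mem _ fun p _ => Submodule.sum_mem _ fun q _ => ?_
  split_ifs with hpq
  · have h1 : M p p = 0 := by
      by_contra h1
      exact lt_irrefl _ (hL p p h1)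
    rw [h1, zero_div, zero_smul]
    exact Submodule.zero_mem _
  · by_cases h1 : M p q = 0
    · rw [h1, zero_smul]
      exact Submodule.zero_mem _
    · have hc : p.1 = q.1 := by
        by_contra hc
        exact h1 (hM.1 p q hc)
      have h2 : (q.2 : ℕ) < p.2 := hL p q h1
      refine Submodule.smul_mem _ _ (Submodule.subset_span ⟨t + 2 * ((p.2 : ℕ) - q.2), by omega, ?_⟩)
      rw [h.hh_un hpq hc, hw, map_smul, ← add_smul]
      congr 1
      push_cast [Nat.cast_sub h2.le]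
      ring

theorem Rp.lo_Lw (h : Rp ρ) {m : ℕ} {M : Matrix (Fin k × Fin n) (Fin k × Fin n) ℂ}
    (hM : M ∈ SL k n) (hL : Lo M) {w : U} (hw : w ∈ Lw ρ m) : ρ M w ∈ Lw ρ m := by
  unfold Lw at hw
  induction hw using Submodule.span_induction with
  | mem w hw =>
    obtain ⟨t, -, ht⟩ := hw
    exact h.lo_eig hM hL ht
  | zero =>
    rw [map_zero]
    exact Submodule.zero_mem _
  | add x y _ _ hx hy =>
    rw [map_add]
    exact Submodule.add_mem _ hx hy
  | smul c x _ hx =>
    rw [map_smul]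
    exact Submodule.smul_mem _ _ hx

theorem Lw_disj {m : ℕ} {w : U} (hw : w ∈ Lw ρ m) (h1 : ρ (hh k n) w = h0 k n m • w) : w = 0 := by
  have h2 : Lw ρ m ≤ ⨆ μ ≠ h0 k n m, (ρ (hh k n)).eigenspace μ := by
    refine Submodule.span_le.2 ?_
    rintro x ⟨t, ht, hx⟩
    have h3 : x ∈ (ρ (hh k n)).eigenspace (h0 k n m - t) := Module.End.mem_eigenspace_iff.2 hx
    refine Submodule.mem_iSup_of_mem (h0 k n m - t) (Submodule.mem_iSup_of_mem ?_ h3)
    intro h4
    have h5 : (t : ℂ) = 0 := by linear_combination -h4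
    have h6 : t = 0 := by exact_mod_cast h5
    omega
  have h3 := Module.End.eigenspaces_iSupIndep (ρ (hh k n)) (h0 k n m)
  exact Submodule.disjoint_def.1 h3 w (Module.End.mem_eigenspace_iff.2 h1) (h2 hw)

/-- The tower of the subspaces generated by `G`. -/
def tw (ρ : Matrix (Fin k × Fin n) (Fin k × Fin n) ℂ →ₗ[ℂ] Module.End ℂ U)
    (G : Submodule ℂ U) : ℕ → Submodule ℂ U
  | 0 => G
  | j + 1 => tw ρ G j ⊔ Submodule.span ℂ {w | ∃ M ∈ SL k n, Lo M ∧ ∃ v ∈ tw ρ G j, w = ρ M v}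

variable {G : Submodule ℂ U}

theorem tw_succ (j : ℕ) : tw ρ G j ≤ tw ρ G (j + 1) := le_sup_left

theorem tw_mono : Monotone (tw ρ G) := monotone_nat_of_le_succ tw_succ

theorem tw_lo {j : ℕ} {M : Matrix (Fin k × Fin n) (Fin k × Fin n) ℂ}
    (hM : M ∈ SL k n) (hL : Lo M) {w : U} (hw : w ∈ tw ρ G j) : ρ M w ∈ tw ρ G (j + 1) :=
  Submodule.mem_sup_right (Submodule.subset_span ⟨M, hM, hL, w, hw, rfl⟩)

theorem Rp.tw_up (h : Rp ρ) {m : ℕ} (hG : ∀ u ∈ G, Wt ρ (top k n m) u) (j : ℕ) :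
    ∀ M ∈ SL k n, Up M → ∀ w ∈ tw ρ G j, ρ M w ∈ tw ρ G j := by
  induction j with
  | zero => exact fun M hM hU w hw => h.up_top hM hU hG hw
  | succ j ih =>
    intro M hM hU w hw
    obtain ⟨x, hx, y, hy, rfl⟩ := Submodule.mem_sup.1 hw
    rw [map_add]
    refine Submodule.add_mem _ (tw_succ j (ih M hM hU x hx)) ?_
    clear hw
    induction hy using Submodule.span_induction with
    | mem y hy =>
      obtain ⟨L, hL, hLo, v, hv, rfl⟩ := hy
      have h1 := LinearMap.congr_fun (h.br M hM L hL) v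
      rw [LinearMap.sub_apply, Module.End.mul_apply, Module.End.mul_apply] at h1
      have h2 : ρ M (ρ L v) = ρ L (ρ M v) + ρ (M * L - L * M) v := by
        rw [h1]
        abel
      rw [h2]
      refine Submodule.add_mem _ (tw_lo hL hLo (ih M hM hU v hv)) ?_
      have h3 := SL_br hM hL
      have h4 : M * L - L * M = lo (M * L - L * M) + (M * L - L * M - lo (M * L - L * M)) := by
        abel
      rw [h4, map_add, LinearMap.add_apply]
      refine Submodule.add_mem _ (tw_lo (lo_mem h3) (lo_Lo _) hv) (tw_succ j ?_)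
      exact ih _ (Submodule.sub_mem _ h3 (lo_mem h3)) (up_Up _) v hv
    | zero =>
      rw [map_zero]
      exact Submodule.zero_mem _
    | add x y hx' hy' hx hy =>
      rw [map_add]
      exact Submodule.add_mem _ hx hy
    | smul c x hx' hx =>
      rw [map_smul]
      exact Submodule.smul_mem _ _ hx

theorem Rp.tw_all (h : Rp ρ) {m : ℕ} (hG : ∀ u ∈ G, Wt ρ (top k n m) u) {j : ℕ}
    {M : Matrix (Fin k × Fin n) (Fin k × Fin n) ℂ} (hM : M ∈ SL k n) {w : U}
    (hw : w ∈ tw ρ G j) : ρ M w ∈ tw ρ G (j + 1) := by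
  have h4 : M = lo M + (M - lo M) := by abel
  rw [h4, map_add, LinearMap.add_apply]
  exact Submodule.add_mem _ (tw_lo (lo_mem hM) (lo_Lo _) hw) (tw_succ j
    (h.tw_up hG j _ (Submodule.sub_mem _ hM (lo_mem hM)) (up_Up _) w hw))

theorem Rp.tw_le (h : Rp ρ) {m : ℕ} (hG : ∀ u ∈ G, Wt ρ (top k n m) u) (j : ℕ) :
    tw ρ G j ≤ G ⊔ Lw ρ m := by
  induction j with
  | zero => exact le_sup_left
  | succ j ih =>
    refine sup_le ih (Submodule.span_le.2 ?_)
    rintro _ ⟨M, hM, hL, v, hv, rfl⟩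
    obtain ⟨x, hx, y, hy, rfl⟩ := Submodule.mem_sup.1 (ih hv)
    rw [map_add]
    refine Submodule.mem_sup_right (Submodule.add_mem _ ?_ (h.lo_Lw hM hL hy))
    refine h.lo_eig (t := 0) hM hL ?_
    rw [Nat.cast_zero, sub_zero]
    exact hh_top (hG x hx)

/-- **The subspace generated by highest weight vectors contains no other highest weight vectors.** -/
theorem Rp.exists_N (h : Rp ρ) {m : ℕ} (hG : ∀ u ∈ G, Wt ρ (top k n m) u) :
    ∃ N : Submodule ℂ U, Stb ρ N ∧ G ≤ N ∧ ∀ w ∈ N, Wt ρ (top k n m) w → w ∈ G := by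
  let N : Submodule ℂ U :=
    { carrier := {w | ∃ j, w ∈ tw ρ G j}
      zero_mem' := ⟨0, Submodule.zero_mem _⟩
      add_mem' := by
        rintro x y ⟨i, hi⟩ ⟨j, hj⟩
        exact ⟨max i j, Submodule.add_mem _ (tw_mono (le_max_left i j) hi)
          (tw_mono (le_max_right i j) hj)⟩
      smul_mem' := by
        rintro c x ⟨i, hi⟩
        exact ⟨i, Submodule.smul_mem _ _ hi⟩ }
  refine ⟨N, fun M hM w hw => ?_, fun w hw => ⟨0, hw⟩, fun w hw ht => ?_⟩
  · obtain ⟨j, hj⟩ := hw
    exact ⟨j + 1, h.tw_all hG hM hj⟩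
  · obtain ⟨j, hj⟩ := hw
    obtain ⟨x, hx, y, hy, rfl⟩ := Submodule.mem_sup.1 (h.tw_le hG j hj)
    have h1 := hh_top (ρ := ρ) ht
    rw [map_add, hh_top (hG x hx), smul_add] at h1
    rw [Lw_disj hy (add_left_cancel h1), add_zero]
    exact hx

end Rep

section Pair

variable {U U' : Type} [AddCommGroup U] [Module ℂ U] [AddCommGroup U'] [Module ℂ U']
  {ρ : Matrix (Fin k × Fin n) (Fin k × Fin n) ℂ →ₗ[ℂ] Module.End ℂ U}
  {ρ' : Matrix (Fin k × Fin n) (Fin k × Fin n) ℂ →ₗ[ℂ] Module.End ℂ U'}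

/-- The sum of two representations. -/
def sm (ρ : Matrix (Fin k × Fin n) (Fin k × Fin n) ℂ →ₗ[ℂ] Module.End ℂ U)
    (ρ' : Matrix (Fin k × Fin n) (Fin k × Fin n) ℂ →ₗ[ℂ] Module.End ℂ U') :
    Matrix (Fin k × Fin n) (Fin k × Fin n) ℂ →ₗ[ℂ] Module.End ℂ (U × U') where
  toFun M := (ρ M).prodMap (ρ' M)
  map_add' M N := by
    refine LinearMap.ext fun x => ?_
    rw [map_add, map_add]
    rfl
  map_smul' c M := by
    refine LinearMap.ext fun x => ?_
    rw [map_smul, map_smul]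
    rfl

theorem sm_apply (M : Matrix (Fin k × Fin n) (Fin k × Fin n) ℂ) (x : U × U') :
    sm ρ ρ' M x = (ρ M x.1, ρ' M x.2) := rfl

theorem Rp.sm (h : Rp ρ) (h' : Rp ρ') : Rp (sm ρ ρ') where
  br M hM N hN := by
    refine LinearMap.ext fun x => ?_
    rw [sm_apply, h.br M hM N hN, h'.br M hM N hN]
    rfl
  sq p := by
    refine LinearMap.ext fun x => ?_
    rw [Module.End.mul_apply, sm_apply, sm_apply]
    exact Prod.ext (h.sq' p x.1) (h'.sq' p x.2)

theorem wt_sm {S : Finset (Fin k × Fin n)} {x : U × U'} :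
    Wt (sm ρ ρ') S x ↔ Wt ρ S x.1 ∧ Wt ρ' S x.2 := by
  constructor
  · intro h
    exact ⟨fun p => congrArg Prod.fst (h p), fun p => congrArg Prod.snd (h p)⟩
  · rintro ⟨h1, h2⟩ p
    exact Prod.ext (h1 p) (h2 p)

/-- **The intertwining map.** -/
theorem exists_int (h : Rp ρ) (h' : Rp ρ') {m : ℕ} (hm : 2 * m = n) [Nontrivial U]
    [Nontrivial U'] : ∃ T : U →ₗ[ℂ] U', T ≠ 0 ∧
      ∀ M ∈ SL k n, ∀ u, ρ' M (T u) = T (ρ M u) := by
  classical
  obtain ⟨u₀, hu₀, hw⟩ := h.exists_top hm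
  obtain ⟨u₁, hu₁, hw'⟩ := h'.exists_top hm
  obtain ⟨φ, hφ⟩ := Module.Projective.exists_dual_ne_zero ℂ hu₀
  let G : Submodule ℂ (U × U') :=
    { carrier := {x | Wt ρ (top k n m) x.1 ∧ x.2 = φ x.1 • u₁}
      zero_mem' := ⟨fun p => by
        change ρ (iv p) 0 = _ • (0 : U)
        rw [map_zero, smul_zero], by
        change (0 : U') = φ 0 • u₁
        rw [map_zero, zero_smul]⟩
      add_mem' := by
        rintro x y ⟨h1, h2⟩ ⟨h3, h4⟩
        refine ⟨fun p => ?_, ?_⟩
        · change ρ (iv p) (x.1 + y.1) = _ • (x.1 + y.1)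
          rw [map_add, h1 p, h3 p, smul_add]
        · change x.2 + y.2 = φ (x.1 + y.1) • u₁
          rw [map_add, add_smul, h2, h4]
      smul_mem' := by
        rintro c x ⟨h1, h2⟩
        refine ⟨fun p => ?_, ?_⟩
        · change ρ (iv p) (c • x.1) = _ • (c • x.1)
          rw [map_smul, h1 p, smul_comm]
        · change c • x.2 = φ (c • x.1) • u₁
          rw [map_smul, h2, smul_eq_mul, mul_smul] }
  have hG : ∀ x ∈ G, Wt (sm ρ ρ') (top k n m) x := by
    rintro x ⟨h1, h2⟩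
    refine wt_sm.2 ⟨h1, fun p => ?_⟩
    rw [h2, map_smul, hw' p, smul_comm]
  obtain ⟨N, hN, hGN, hNt⟩ := (h.sm h').exists_N hG
  -- the kernel
  have hker : ∀ u', ((0, u') : U × U') ∈ N → u' = 0 := by
    let K : Submodule ℂ U' := N.comap (LinearMap.inr ℂ U U')
    have hK : Stb ρ' K := by
      intro M hM u hu
      have h1 := hN M hM _ hu
      rw [sm_apply] at h1
      change ((0, ρ' M u) : U × U') ∈ N
      change ((ρ M 0, ρ' M u) : U × U') ∈ N at h1
      rwa [map_zero] at h1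
    have h1 : K ≤ ⊥ := h'.le_of_top hm (A := ⊥) (fun M _ u hu => by
      rw [Submodule.mem_bot] at hu
      rw [hu, map_zero]
      exact Submodule.zero_mem _) hK fun u hu ht => by
      have h2 := hNt _ hu (wt_sm.2 ⟨fun p => by
        change ρ (iv p) 0 = _ • (0 : U)
        rw [map_zero, smul_zero], ht⟩)
      have h3 : u = φ 0 • u₁ := h2.2
      rw [Submodule.mem_bot, h3, map_zero, zero_smul]
    exact fun u' hu' => (Submodule.mem_bot ℂ).1 (h1 hu')
  -- the image
  have him : ∀ u, ∃ u', ((u, u') : U × U') ∈ N := by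
    let K : Submodule ℂ U := N.map (LinearMap.fst ℂ U U')
    have hK : Stb ρ K := by
      rintro M hM _ ⟨x, hx, rfl⟩
      exact ⟨_, hN M hM _ hx, rfl⟩
    have h1 : (⊤ : Submodule ℂ U) ≤ K := h.le_of_top hm hK
      (fun _ _ _ _ => Submodule.mem_top) fun u _ ht =>
        ⟨(u, φ u • u₁), hGN ⟨ht, rfl⟩, rfl⟩
    intro u
    obtain ⟨x, hx, hxu⟩ := h1 (Submodule.mem_top (x := u))
    refine ⟨x.2, ?_⟩
    have h2 : ((u, x.2) : U × U') = x := Prod.ext hxu.symm rfl
    rw [h2]
    exact hx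
  choose T hT using him
  have huniq : ∀ u u', ((u, u') : U × U') ∈ N → u' = T u := by
    intro u u' hu'
    have h1 := N.sub_mem hu' (hT u)
    have h2 : ((u, u') : U × U') - (u, T u) = (0, u' - T u) := Prod.ext (sub_self u) rfl
    rw [h2] at h1
    exact sub_eq_zero.1 (hker _ h1)
  let TT : U →ₗ[ℂ] U' :=
    { toFun := T
      map_add' := fun x y => (huniq _ _ (N.add_mem (hT x) (hT y))).symm
      map_smul' := fun c x => (huniq _ _ (N.smul_mem c (hT x))).symm }
  refine ⟨TT, fun h0 => ?_, fun M hM u => huniq _ _ (hN M hM _ (hT u))⟩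
  have h1 : φ u₀ • u₁ = T u₀ := huniq _ _ (hGN ⟨hw, rfl⟩)
  have h2 : TT u₀ = 0 := by rw [h0, LinearMap.zero_apply]
  have h3 : T u₀ = 0 := h2
  rw [h3] at h1
  exact (smul_ne_zero hφ hu₁) h1

end Pair

end Pool.Agent.H67M
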