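import Pool.Agent.H67Mid.Min

set_option autoImplicit false
set_option linter.unusedSectionVars false
set_option linter.unusedVariables false

/-!
# The number operators of the middle part
-/

open Module

noncomputable section

namespace Pool.Agent.H67M

open Pool.Agent.R918

section Idem

variable {J : Type} [Fintype J] [DecidableEq J] {U : Type} [AddCommGroup U] [Module ℂ U]
  {a b : J → Module.End ℂ U}

/-- The second quantization of an idempotent matrix of rank one is idempotent. -/
theorem rho_idem (h : Car a b) {M : Matrix J J ℂ} (hM : M * M = M)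
    (hm : ∀ p q r s, M p q * M r s = M p s * M r q) : rho a b M * rho a b M = rho a b M := by
  refine LinearMap.ext fun u => ?_
  rw [Module.End.mul_apply]
  obtain ⟨D, hD⟩ : ∃ D, D = ∑ p, ∑ r, ∑ q, ∑ s, (M p q * M r s) • a p (a r (b q (b s u))) :=
    ⟨_, rfl⟩
  have hD0 : D = 0 := by
    have h1 : D = -D := by
      conv_lhs => rw [hD]
      rw [hD, ← Finset.sum_neg_distrib]
      refine Finset.sum_congr rfl fun p _ => ?_
      rw [← Finset.sum_neg_distrib]
      refine Finset.sum_congr rfl fun r _ => ?_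
      conv_lhs => rw [Finset.sum_comm]
      rw [← Finset.sum_neg_distrib]
      refine Finset.sum_congr rfl fun q _ => ?_
      rw [← Finset.sum_neg_distrib]
      refine Finset.sum_congr rfl fun s _ => ?_
      rw [h.bb' s q, map_neg, map_neg, smul_neg, hm p s r q]
    have h2 : (2 : ℂ) • D = 0 := by
      rw [two_smul]
      nth_rewrite 1 [h1]
      exact neg_add_cancel _
    exact (smul_eq_zero.1 h2).resolve_left two_ne_zero
  have h1 : ∀ p q, M p q • a p (b q (rho a b M u)) =
      (∑ s, (M p q * M q s) • a p (b s u)) -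
        ∑ r, ∑ s, (M p q * M r s) • a p (a r (b q (b s u))) := by
    intro p q
    rw [rho_apply, map_sum, map_sum, Finset.smul_sum]
    have h2 : ∀ r, M p q • a p (b q (∑ s, M r s • a r (b s u))) =
        (if r = q then ∑ s, (M p q * M q s) • a p (b s u) else 0) -
          ∑ s, (M p q * M r s) • a p (a r (b q (b s u))) := by
      intro r
      rw [map_sum, map_sum, Finset.smul_sum]
      have h3 : ∀ s, M p q • a p (b q (M r s • a r (b s u))) =
          (if r = q then (M p q * M q s) • a p (b s u) else 0) -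
            (M p q * M r s) • a p (a r (b q (b s u))) := by
        intro s
        have h4 : b q (a r (b s u)) = (if r = q then b s u else 0) - a r (b q (b s u)) := by
          rw [← h.ab' r q (b s u)]
          abel
        rw [map_smul, map_smul, smul_smul, h4, map_sub, smul_sub]
        congr 1
        by_cases hr : r = q
        · rw [if_pos hr, if_pos hr, hr]
        · rw [if_neg hr, if_neg hr, map_zero, smul_zero]
      rw [Finset.sum_congr rfl fun s _ => h3 s, Finset.sum_sub_distrib]
      congr 1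
      by_cases hr : r = q
      · simp only [if_pos hr]
      · simp only [if_neg hr, Finset.sum_const_zero]
    rw [Finset.sum_congr rfl fun r _ => h2 r, Finset.sum_sub_distrib, Finset.sum_ite_eq',
      if_pos (Finset.mem_univ _)]
  rw [rho_apply M (rho a b M u)]
  have h2 : ∀ p, ∑ q, M p q • a p (b q (rho a b M u)) = (∑ s, M p s • a p (b s u)) -
      ∑ r, ∑ q, ∑ s, (M p q * M r s) • a p (a r (b q (b s u))) := by
    intro p
    rw [Finset.sum_congr rfl fun q _ => h1 p q, Finset.sum_sub_distrib]
    congr 1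
    · rw [Finset.sum_comm]
      refine Finset.sum_congr rfl fun s _ => ?_
      rw [← Finset.sum_smul, ← Matrix.mul_apply, hM]
    · rw [Finset.sum_comm]
  rw [Finset.sum_congr rfl fun p _ => h2 p, Finset.sum_sub_distrib, ← hD, hD0, sub_zero,
    rho_apply]

end Idem

variable {k n : ℕ} {U H : Type} [AddCommGroup U] [Module ℂ U] [AddCommGroup H] [Module ℂ H]
  {a b : Fin k × Fin n → Module.End ℂ U} {P : U →ₗ[ℂ] H} {Q : H →ₗ[ℂ] U}

theorem em_one (σ : Fin k) : em σ (1 : Matrix (Fin n) (Fin n) ℂ) = pj k n σ := by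
  ext p q
  rw [em_apply, pj_apply, Matrix.one_apply]
  by_cases h : p = q
  · subst h
    by_cases h' : p.1 = σ
    · rw [if_pos ⟨h', h'⟩, if_pos rfl, if_pos ⟨rfl, h'⟩]
    · rw [if_neg (fun h2 => h' h2.1), if_neg (fun h2 => h' h2.2)]
  · rw [if_neg (c := p = q ∧ p.1 = σ) (fun h2 => h h2.1)]
    split_ifs with h1 h2
    · exact absurd (Prod.ext (h1.1.trans h1.2.symm) h2) h
    · rfl
    · rfl

theorem em_mul (σ : Fin k) (x y : Matrix (Fin n) (Fin n) ℂ) : em σ x * em σ y = em σ (x * y) := by
  refine bk_ext ((em_bd σ x).mul (em_bd σ y)) (em_bd σ _) fun τ => ?_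
  rw [bk_mul (em_bd σ x), bk_em, bk_em, bk_em]
  split_ifs
  · rfl
  · exact mul_zero 0

theorem cmp_one_pj (hs : MidSet a b P Q) (σ : Fin k) :
    cmp P Q (rho a b (pj k n σ)) = ((n : ℂ) / 2) • 1 := by
  rw [rho_pj]
  refine LinearMap.ext fun x => ?_
  have h4 := hs.mid x σ
  have h5 : nn a b σ (Q x) = ((n : ℂ) / 2) • Q x := by
    have h6 : nn a b σ (Q x) = (1 / 2 : ℂ) • ((2 : ℂ) • nn a b σ (Q x)) := by module
    rw [h6, h4, smul_smul]
    congr 1
    ring
  rw [cmp_apply, h5, map_smul, hs.pq]
  rfl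

/-- The bracket relation. -/
theorem phi_br (h : Car a b) (hs : MidSet a b P Q)
    {M N : Matrix (Fin k × Fin n) (Fin k × Fin n) ℂ} (hM : IsBD M) (hN : IsBD N) :
    cmp P Q (rho a b (M * N - N * M)) = cmp P Q (rho a b M) * cmp P Q (rho a b N) -
      cmp P Q (rho a b N) * cmp P Q (rho a b M) := by
  rw [rho_bracket h, map_sub, hs.cmp_mul _ (nn_rho_comm h hN),
    hs.cmp_mul _ (nn_rho_comm h hM)]

/-- **Involutions.** -/
theorem sq_of (h : Car a b) (hs : MidSet a b P Q) (hn : (n : ℂ) ≠ 0) {σ : Fin k}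
    {p : Matrix (Fin n) (Fin n) ℂ} (hp : p * p = p) (hm : Minor p) :
    cmp P Q (rho a b ((2 : ℂ) • em σ p - (2 / n : ℂ) • em σ 1)) *
      cmp P Q (rho a b ((2 : ℂ) • em σ p - (2 / n : ℂ) • em σ 1)) = 1 := by
  have h1 : rho a b (em σ p) * rho a b (em σ p) = rho a b (em σ p) := by
    refine rho_idem h (by rw [em_mul, hp]) fun u v w x => ?_
    rw [em_apply, em_apply, em_apply, em_apply]
    by_cases h1 : u.1 = σ <;> by_cases h2 : v.1 = σ <;> by_cases h3 : w.1 = σ <;>
      by_cases h4 : x.1 = σ <;> simp only [h1, h2, h3, h4, and_self, if_true, if_false, mul_zero,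
        zero_mul, false_and, and_false]
    exact hm _ _ _ _
  have h2 : cmp P Q (rho a b (em σ p)) * cmp P Q (rho a b (em σ p)) =
      cmp P Q (rho a b (em σ p)) := by
    rw [← hs.cmp_mul _ (nn_rho_comm h (em_bd σ p)), h1]
  have h3 : cmp P Q (rho a b ((2 : ℂ) • em σ p - (2 / n : ℂ) • em σ 1)) =
      (2 : ℂ) • cmp P Q (rho a b (em σ p)) - 1 := by
    rw [map_sub, map_sub, map_smul, map_smul, map_smul, map_smul, em_one, cmp_one_pj hs, smul_smul]
    have h4 : (2 / n * (n / 2) : ℂ) = 1 := by field_simp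
    rw [h4, one_smul]
  rw [h3]
  generalize cmp P Q (rho a b (em σ p)) = N at h2
  rw [sub_mul, mul_sub, mul_sub, smul_mul_smul_comm, h2, mul_one, one_mul, mul_one]
  module

end Pool.Agent.H67M
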