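import Pool.Agent.H67Mid.Int
import Pool.Agent.H67Mid.Sq
import Pool.Agent.R918.MidAV

set_option autoImplicit false
set_option linter.unusedSectionVars false
set_option linter.unusedVariables false

/-!
# Isomorphisms between Lie algebras of middle exterior type have intertwining maps
-/

open Module

noncomputable section

namespace Pool.Agent.H67M

open Pool.Agent.R918

/-! ### Identities -/

section Ring

variable {R : Type} [Ring R]

theorem ad3 {E M : R} (h : E * E = E) :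
    E * (E * (E * M - M * E) - (E * M - M * E) * E) -
      (E * (E * M - M * E) - (E * M - M * E) * E) * E = E * M - M * E := by
  have h1 : ∀ x, E * (E * x) = E * x := fun x => by rw [← mul_assoc, h]
  simp only [mul_sub, sub_mul, mul_assoc, h, h1]
  abel

theorem ad1 {E M : R} (h : E * E = E) (h2 : E * M - M * E = M) (htwo : ∀ x : R, x + x = 0 → x = 0) :
    E * M = M ∧ M * E = 0 := by
  have h3 : M * E = 0 := by
    refine htwo _ ?_
    have e1 : (E * M - M * E) * E = M * E := by rw [h2]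
    have e2 : E * (E * M - M * E) = E * M := by rw [h2]
    rw [sub_mul, mul_assoc M, h] at e1
    rw [mul_sub, ← mul_assoc, h, ← mul_assoc] at e2
    have e3 : E * M * E = 0 := by
      have : E * M - E * M * E = E * M := e2
      have h4 := sub_eq_self.1 this
      exact h4
    rw [e3, zero_sub] at e1
    rw [← e1]
    nth_rewrite 2 [e1]
    exact neg_add_cancel _
  exact ⟨by rw [h3, sub_zero] at h2; exact h2, h3⟩

end Ring

section Std

variable {k n : ℕ}

theorem iv_eq (p : Fin k × Fin n) :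
    iv p = (2 : ℂ) • em p.1 (Matrix.single p.2 p.2 (1 : ℂ)) - (2 / n : ℂ) • em p.1 1 := by
  unfold iv
  rw [em_one]
  congr 2
  ext u v
  rw [un_apply, em_apply, Matrix.single_apply]
  by_cases h : u = p ∧ v = p
  · obtain ⟨rfl, rfl⟩ := h
    simp
  · rw [if_neg h]
    by_cases h1 : u.1 = p.1 ∧ v.1 = p.1
    · rw [if_pos h1, if_neg]
      rintro ⟨h2, h3⟩
      exact h ⟨Prod.ext h1.1 h2.symm, Prod.ext h1.2 h3.symm⟩
    · rw [if_neg h1]

theorem minor_single (i : Fin n) : Minor (Matrix.single i i (1 : ℂ)) := by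
  intro u v w x
  have h : ∀ s t : Fin n, Matrix.single i i (1 : ℂ) s t =
      (if i = s then 1 else 0) * (if i = t then 1 else 0) := by
    intro s t
    rw [Matrix.single_apply]
    by_cases h1 : i = s
    · by_cases h2 : i = t
      · rw [if_pos ⟨h1, h2⟩, if_pos h1, if_pos h2, one_mul]
      · rw [if_neg (fun h3 => h2 h3.2), if_neg h2, mul_zero]
    · rw [if_neg (fun h3 => h1 h3.1), if_neg h1, zero_mul]
  rw [h, h, h, h]
  ring

theorem iv_br (p : Fin k × Fin n) {X : Matrix (Fin k × Fin n) (Fin k × Fin n) ℂ} (hX : IsBD X) :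
    iv p * X - X * iv p = (2 : ℂ) • (un p p * X - X * un p p) := by
  unfold iv
  rw [sub_mul, mul_sub, smul_mul_assoc, smul_mul_assoc, mul_smul_comm, mul_smul_comm,
    pj_comm _ hX]
  module

theorem un_idem (p : Fin k × Fin n) : un p p * un p p = un p p := by
  rw [un_mul, if_pos rfl]

theorem std1 (p : Fin k × Fin n) {X : Matrix (Fin k × Fin n) (Fin k × Fin n) ℂ} (hX : IsBD X) :
    iv p * (iv p * (iv p * X - X * iv p) - (iv p * X - X * iv p) * iv p) -
      (iv p * (iv p * X - X * iv p) - (iv p * X - X * iv p) * iv p) * iv p =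
        (4 : ℂ) • (iv p * X - X * iv p) := by
  have hE := un_bd (k := k) (n := n) (p := p) (q := p) rfl
  have b1 := (hE.mul hX).sub (hX.mul hE)
  have b2 := (hE.mul b1).sub (b1.mul hE)
  have key : ∀ (c : ℂ) {Z : Matrix (Fin k × Fin n) (Fin k × Fin n) ℂ}, IsBD Z →
      iv p * (c • Z) - (c • Z) * iv p = (c * 2) • (un p p * Z - Z * un p p) := by
    intro c Z hZ
    rw [mul_smul_comm, smul_mul_assoc, ← smul_sub, iv_br p hZ, smul_smul]
  rw [iv_br p hX, key _ b1, key _ b2, ad3 (un_idem p), smul_smul]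
  norm_num

theorem std2 (p : Fin k × Fin n) {X : Matrix (Fin k × Fin n) (Fin k × Fin n) ℂ} (hX : IsBD X)
    (h : iv p * X - X * iv p = (2 : ℂ) • X) (Z : Matrix (Fin k × Fin n) (Fin k × Fin n) ℂ) :
    X * (X * Z - Z * X) - (X * Z - Z * X) * X = (-2 * (X * Z) p p) • X := by
  rw [iv_br p hX] at h
  have h1 : un p p * X - X * un p p = X := by
    have h2 := congrArg (fun M => (1 / 2 : ℂ) • M) h
    simp only [smul_smul] at h2
    norm_num at h2
    exact h2
  obtain ⟨g1, g2⟩ := ad1 (un_idem p) h1 fun x hx => by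
    have h3 : (2 : ℂ) • x = 0 := by rw [two_smul, hx]
    exact (smul_eq_zero.1 h3).resolve_left two_ne_zero
  have g3 : X * X = 0 := by
    conv_lhs =>
      congr
      · skip
      · rw [← g1]
    rw [← mul_assoc, g2, zero_mul]
  have g4 : ∀ W : Matrix (Fin k × Fin n) (Fin k × Fin n) ℂ, un p p * W * un p p =
      (W p p) • un p p := by
    intro W
    ext u v
    rw [Matrix.smul_apply, un_apply]
    unfold un
    by_cases h2 : v = p
    · subst h2
      rw [Matrix.mul_single_apply_same, mul_one]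
      by_cases h3 : u = v
      · subst h3
        rw [Matrix.single_mul_apply_same, one_mul, if_pos ⟨rfl, rfl⟩, smul_eq_mul, mul_one]
      · rw [Matrix.single_mul_apply_of_ne _ _ _ _ _ h3, if_neg (fun h4 => h3 h4.1), smul_zero]
    · rw [Matrix.mul_single_apply_of_ne _ _ _ _ _ h2, if_neg (fun h4 => h2 h4.2), smul_zero]
  have g5 : X * Z * X = ((X * Z) p p) • X := by
    have e1 : X * Z * X = un p p * (X * Z) * un p p * X := by
      rw [mul_assoc (un p p * (X * Z)), g1, ← mul_assoc (un p p), g1]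
    rw [e1, g4, smul_mul_assoc, g1]
  have g6 : X * (X * Z) = 0 := by rw [← mul_assoc, g3, zero_mul]
  have g7 : Z * X * X = 0 := by rw [mul_assoc, g3, mul_zero]
  rw [mul_sub, sub_mul, g6, g7, ← mul_assoc, g5, mul_smul]
  module

end Std

section Inj

variable {k n : ℕ} {U : Type} [AddCommGroup U] [Module ℂ U]
  {ρ : Matrix (Fin k × Fin n) (Fin k × Fin n) ℂ →ₗ[ℂ] Module.End ℂ U}

theorem Rp.ne_un (h : Rp ρ) [Nontrivial U] {p q : Fin k × Fin n} (hpq : p ≠ q)
    (hc : p.1 = q.1) : ρ (un q p) ≠ 0 := by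
  intro h0
  have hn : (n : ℂ) ≠ 0 := by
    have := p.2.2
    exact_mod_cast (by omega : n ≠ 0)
  -- the involutions agree
  have e1 : ∀ {r s : Fin k × Fin n}, r ≠ s → r.1 = s.1 → ρ (un r s) = 0 → ρ (iv r) = ρ (iv s) := by
    intro r s hrs hcr h1
    have h2 := h.br _ (un_mem hrs hcr) _ (un_mem (Ne.symm hrs) hcr.symm)
    rw [un_br hcr, h1, zero_mul, mul_zero, sub_zero, map_smul, map_sub] at h2
    exact sub_eq_zero.1 ((smul_eq_zero.1 h2).resolve_left (by norm_num))
  have e2 : ρ (iv q) = ρ (iv p) := e1 (Ne.symm hpq) hc.symm h0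
  have e3 : ∀ s : Fin k × Fin n, p ≠ s → p.1 = s.1 → ρ (un p s) = 0 := by
    intro s hps hcs
    have g1 := h.br _ (iv_mem p) _ (un_mem hps hcs)
    have g2 := h.br _ (iv_mem q) _ (un_mem hps hcs)
    rw [H67M.iv_un p hcs, if_pos rfl, if_neg hps, map_smul] at g1
    rw [H67M.iv_un q hcs, if_neg (Ne.symm hpq), e2, map_smul, ← g1] at g2
    have g3 : ((if q = s then 2 else 0) + 2 : ℂ) • ρ (un p s) = 0 := by
      have g4 : ((0 - if q = s then 2 else 0 : ℂ) - (2 - 0)) • ρ (un p s) = 0 := by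
        rw [sub_smul, g2, sub_self]
      rw [← neg_eq_zero, ← neg_smul, ← g4]
      congr 1
      ring
    refine (smul_eq_zero.1 g3).resolve_left ?_
    split_ifs <;> norm_num
  have e4 : ∀ i : Fin n, ρ (iv ((p.1, i) : Fin k × Fin n)) = ρ (iv p) := by
    intro i
    by_cases hi : p = (p.1, i)
    · rw [← hi]
    · exact (e1 hi rfl (e3 _ hi rfl)).symm
  have e5 := congrArg ρ (iv_sum (n := n) p.1)
  rw [map_sum, map_zero, Finset.sum_congr rfl fun i _ => e4 i, Finset.sum_const, Finset.card_univ,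
    Fintype.card_fin, ← Nat.cast_smul_eq_nsmul ℂ] at e5
  have e6 := (smul_eq_zero.1 e5).resolve_left hn
  have e7 := h.sq p
  rw [e6, zero_mul] at e7
  exact zero_ne_one e7

/-- The representation is faithful. -/
theorem Rp.inj (h : Rp ρ) [Nontrivial U] {M : Matrix (Fin k × Fin n) (Fin k × Fin n) ℂ}
    (hM : M ∈ SL k n) (h0 : ρ M = 0) : M = 0 := by
  have hker : ∀ X ∈ SL k n, ∀ N ∈ SL k n, ρ N = 0 → ρ (X * N - N * X) = 0 := by
    intro X hX N hN hN0
    rw [h.br X hX N hN, hN0, mul_zero, zero_mul, sub_zero]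
  have hoff : ∀ p q : Fin k × Fin n, p ≠ q → M p q = 0 := by
    intro p q hpq
    by_cases hc : p.1 = q.1
    swap
    · exact hM.1 p q hc
    by_contra hne
    have h1 := hker _ (un_mem (Ne.symm hpq) hc.symm) _ hM h0
    have hs : un q p * un q p = 0 := by rw [un_mul, if_neg hpq]
    have h2 := hker _ (un_mem (Ne.symm hpq) hc.symm) _
      (SL_br (un_mem (Ne.symm hpq) hc.symm) hM) h1
    have h3 : un q p * (un q p * M - M * un q p) - (un q p * M - M * un q p) * un q p =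
        (-2 * M p q) • un q p := by
      have g5 : un q p * M * un q p = (M p q) • un q p := by
        ext u v
        rw [Matrix.smul_apply, un_apply]
        unfold un
        by_cases h2 : v = p
        · subst h2
          rw [Matrix.mul_single_apply_same, mul_one]
          by_cases h3 : u = q
          · subst h3
            rw [Matrix.single_mul_apply_same, one_mul, if_pos ⟨rfl, rfl⟩, smul_eq_mul, mul_one]
          · rw [Matrix.single_mul_apply_of_ne _ _ _ _ _ h3, if_neg (fun h4 => h3 h4.1), smul_zero]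
        · rw [Matrix.mul_single_apply_of_ne _ _ _ _ _ h2, if_neg (fun h4 => h2 h4.2), smul_zero]
      have g6 : un q p * (un q p * M) = 0 := by rw [← mul_assoc, hs, zero_mul]
      have g7 : M * un q p * un q p = 0 := by rw [mul_assoc, hs, mul_zero]
      rw [mul_sub, sub_mul, g6, g7, ← mul_assoc, g5, mul_smul]
      module
    rw [h3, map_smul] at h2
    exact h.ne_un hpq hc ((smul_eq_zero.1 h2).resolve_left (mul_ne_zero (by norm_num) hne))
  have hdiag : ∀ p q : Fin k × Fin n, p.1 = q.1 → M p p = M q q := by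
    intro p q hc
    by_cases hpq : p = q
    · rw [hpq]
    by_contra hne
    have h1 := hker _ (un_mem hpq hc) _ hM h0
    have h2 : un p q * M - M * un p q = (M q q - M p p) • un p q := by
      ext u v
      rw [Matrix.sub_apply, Matrix.smul_apply, un_apply]
      unfold un
      have e1 : (Matrix.single p q (1 : ℂ) * M) u v = if u = p then M q v else 0 := by
        by_cases hu : u = p
        · subst hu
          rw [Matrix.single_mul_apply_same, one_mul, if_pos rfl]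
        · rw [Matrix.single_mul_apply_of_ne _ _ _ _ _ hu, if_neg hu]
      have e2 : (M * Matrix.single p q (1 : ℂ)) u v = if v = q then M u p else 0 := by
        by_cases hv : v = q
        · subst hv
          rw [Matrix.mul_single_apply_same, mul_one, if_pos rfl]
        · rw [Matrix.mul_single_apply_of_ne _ _ _ _ _ hv, if_neg hv]
      rw [e1, e2]
      by_cases hu : u = p
      · by_cases hv : v = q
        · rw [if_pos hu, if_pos hv, if_pos ⟨hu, hv⟩, hu, hv, smul_eq_mul, mul_one]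
        · rw [if_pos hu, if_neg hv, if_neg fun h => hv h.2, hoff _ _ (Ne.symm hv), sub_zero,
            smul_zero]
      · by_cases hv : v = q
        · rw [if_neg hu, if_pos hv, if_neg fun h => hu h.1, hoff _ _ hu, sub_zero, smul_zero]
        · rw [if_neg hu, if_neg hv, if_neg fun h => hu h.1, sub_zero, smul_zero]
    rw [h2, map_smul] at h1
    exact h.ne_un (Ne.symm hpq) hc.symm
      ((smul_eq_zero.1 h1).resolve_left (sub_ne_zero.2 (Ne.symm hne)))
  ext p q
  rw [Matrix.zero_apply]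
  by_cases hpq : p = q
  · subst hpq
    have h1 := hM.2 p.1
    have hn : (n : ℂ) ≠ 0 := by
      have := p.2.2
      exact_mod_cast (by omega : n ≠ 0)
    rw [btr_sum, Finset.sum_congr rfl fun i _ => hdiag (p.1, i) p rfl, Finset.sum_const,
      Finset.card_univ, Fintype.card_fin, nsmul_eq_mul] at h1
    exact (mul_eq_zero.1 h1).resolve_left hn
  · exact hoff p q hpq

end Inj

section Link

variable {k n k' n' : ℕ} {U H U' H' : Type} [AddCommGroup U] [Module ℂ U] [AddCommGroup H]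
  [Module ℂ H] [AddCommGroup U'] [Module ℂ U'] [AddCommGroup H'] [Module ℂ H']
  {a b : Fin k × Fin n → Module.End ℂ U} {P : U →ₗ[ℂ] H} {Q : H →ₗ[ℂ] U}
  {a' b' : Fin k' × Fin n' → Module.End ℂ U'} {P' : U' →ₗ[ℂ] H'} {Q' : H' →ₗ[ℂ] U'}

/-- The action of matrices on the middle part. -/
def phi (a b : Fin k × Fin n → Module.End ℂ U) (P : U →ₗ[ℂ] H) (Q : H →ₗ[ℂ] U) :
    Matrix (Fin k × Fin n) (Fin k × Fin n) ℂ →ₗ[ℂ] Module.End ℂ H := cmp P Q ∘ₗ rho a b

theorem phi_apply (M : Matrix (Fin k × Fin n) (Fin k × Fin n) ℂ) :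
    phi a b P Q M = cmp P Q (rho a b M) := rfl

theorem phi_rp (h : Car a b) (hs : MidSet a b P Q) : Rp (phi a b P Q) where
  br M hM N hN := phi_br h hs hM.1 hN.1
  sq p := by
    have hn : (n : ℂ) ≠ 0 := by
      have := p.2.2
      exact_mod_cast (by omega : n ≠ 0)
    rw [phi_apply, iv_eq]
    exact sq_of h hs hn (by rw [Matrix.single_mul_single_same, one_mul]) (minor_single p.2)

/-- An isomorphism between two Lie algebras of middle exterior type, as a graph. -/
structure Lm (a b : Fin k × Fin n → Module.End ℂ U) (P : U →ₗ[ℂ] H) (Q : H →ₗ[ℂ] U)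
    (a' b' : Fin k' × Fin n' → Module.End ℂ U') (P' : U' →ₗ[ℂ] H') (Q' : H' →ₗ[ℂ] U')
    (𝔮 : Submodule ℂ (Module.End ℂ H × Module.End ℂ H')) : Prop where
  car : Car a b
  ms : MidSet a b P Q
  car' : Car a' b'
  ms' : MidSet a' b' P' Q'
  br : ∀ x ∈ 𝔮, ∀ y ∈ 𝔮, x * y - y * x ∈ 𝔮
  fst : 𝔮.map (LinearMap.fst ℂ _ _) = slC a b P Q
  snd : 𝔮.map (LinearMap.snd ℂ _ _) = slC a' b' P' Q'
  inj : ∀ y, ((0, y) : Module.End ℂ H × Module.End ℂ H') ∈ 𝔮 → y = 0
  inj' : ∀ x, ((x, 0) : Module.End ℂ H × Module.End ℂ H') ∈ 𝔮 → x = 0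

variable {𝔮 : Submodule ℂ (Module.End ℂ H × Module.End ℂ H')} (h : Lm a b P Q a' b' P' Q' 𝔮)
include h

theorem Lm.uniq {x : Module.End ℂ H} {y z : Module.End ℂ H'} (h1 : (x, y) ∈ 𝔮)
    (h2 : (x, z) ∈ 𝔮) : y = z := by
  have h3 := 𝔮.sub_mem h1 h2
  have h4 : ((x, y) : Module.End ℂ H × Module.End ℂ H') - (x, z) = (0, y - z) :=
    Prod.ext (sub_self x) rfl
  rw [h4] at h3
  exact sub_eq_zero.1 (h.inj _ h3)

theorem Lm.uniq' {x z : Module.End ℂ H} {y : Module.End ℂ H'} (h1 : (x, y) ∈ 𝔮)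
    (h2 : (z, y) ∈ 𝔮) : x = z := by
  have h3 := 𝔮.sub_mem h1 h2
  have h4 : ((x, y) : Module.End ℂ H × Module.End ℂ H') - (z, y) = (x - z, 0) :=
    Prod.ext rfl (sub_self y)
  rw [h4] at h3
  exact sub_eq_zero.1 (h.inj' _ h3)

theorem Lm.brk {x x' : Module.End ℂ H} {y y' : Module.End ℂ H'} (h1 : (x, y) ∈ 𝔮)
    (h2 : (x', y') ∈ 𝔮) : (x * x' - x' * x, y * y' - y' * y) ∈ 𝔮 := h.br _ h1 _ h2

theorem Lm.exists_rep : ∃ ρ : Matrix (Fin k × Fin n) (Fin k × Fin n) ℂ →ₗ[ℂ] Module.End ℂ H',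
    ∀ M ∈ SL k n, (phi a b P Q M, ρ M) ∈ 𝔮 := by
  have h1 : ∀ M : SL k n, ∃ y, (phi a b P Q M.1, y) ∈ 𝔮 := by
    intro M
    have h2 : phi a b P Q M.1 ∈ 𝔮.map (LinearMap.fst ℂ _ _) := by
      rw [h.fst]
      exact ⟨M.1, M.2.1, M.2.2, rfl⟩
    obtain ⟨⟨x, y⟩, hp, hx⟩ := h2
    have hx' : x = phi a b P Q M.1 := hx
    exact ⟨y, hx' ▸ hp⟩
  choose y hy using h1
  let ρ₀ : SL k n →ₗ[ℂ] Module.End ℂ H' :=
    { toFun := y
      map_add' := fun M N => by
        refine h.uniq (hy (M + N)) ?_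
        have h2 := 𝔮.add_mem (hy M) (hy N)
        have h3 : ((phi a b P Q M.1, y M) : Module.End ℂ H × Module.End ℂ H') +
            (phi a b P Q N.1, y N) = (phi a b P Q (M + N).1, y M + y N) := by
          refine Prod.ext ?_ rfl
          change _ = phi a b P Q (M.1 + N.1)
          rw [map_add]
          rfl
        rwa [h3] at h2
      map_smul' := fun c M => by
        refine h.uniq (hy (c • M)) ?_
        have h2 := 𝔮.smul_mem c (hy M)
        have h3 : c • ((phi a b P Q M.1, y M) : Module.End ℂ H × Module.End ℂ H') =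
            (phi a b P Q (c • M).1, c • y M) := by
          refine Prod.ext ?_ rfl
          change _ = phi a b P Q (c • M.1)
          rw [map_smul]
          rfl
        rw [h3] at h2
        exact h2 }
  obtain ⟨ρ, hρ⟩ := LinearMap.exists_extend ρ₀
  refine ⟨ρ, fun M hM => ?_⟩
  have h2 : ρ M = y ⟨M, hM⟩ := LinearMap.congr_fun hρ ⟨M, hM⟩
  rw [h2]
  exact hy ⟨M, hM⟩

theorem Lm.mem_snd {X : Matrix (Fin k' × Fin n') (Fin k' × Fin n') ℂ} (hX : X ∈ SL k' n') :
    ∃ M ∈ SL k n, (phi a b P Q M, phi a' b' P' Q' X) ∈ 𝔮 := by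
  have h2 : phi a' b' P' Q' X ∈ 𝔮.map (LinearMap.snd ℂ _ _) := by
    rw [h.snd]
    exact ⟨X, hX.1, hX.2, rfl⟩
  obtain ⟨⟨x, y⟩, hp, hy⟩ := h2
  have hy' : y = phi a' b' P' Q' X := hy
  subst hy'
  have h3 : x ∈ slC a b P Q := by
    rw [← h.fst]
    exact ⟨_, hp, rfl⟩
  obtain ⟨M, h4, h5, rfl⟩ := h3
  exact ⟨M, ⟨h4, h5⟩, hp⟩

theorem Lm.rp [Nontrivial H] [Nontrivial H']
    {ρ : Matrix (Fin k × Fin n) (Fin k × Fin n) ℂ →ₗ[ℂ] Module.End ℂ H'}
    (hρ : ∀ M ∈ SL k n, (phi a b P Q M, ρ M) ∈ 𝔮) : Rp ρ := by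
  have hφ := phi_rp h.car h.ms
  have hφ' := phi_rp h.car' h.ms'
  have hbr : ∀ M ∈ SL k n, ∀ N ∈ SL k n, ρ (M * N - N * M) = ρ M * ρ N - ρ N * ρ M := by
    intro M hM N hN
    refine h.uniq (hρ _ (SL_br hM hN)) ?_
    rw [hφ.br M hM N hN]
    exact h.brk (hρ M hM) (hρ N hN)
  refine ⟨hbr, fun p => ?_⟩
  -- the element which corresponds to the involution
  obtain ⟨Y, hY1, hY2, hY3⟩ : ρ (iv p) ∈ slC a' b' P' Q' := by
    rw [← h.snd]
    exact ⟨_, hρ _ (iv_mem p), rfl⟩
  have hY : Y ∈ SL k' n' := ⟨hY1, hY2⟩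
  have hYφ : ρ (iv p) = phi a' b' P' Q' Y := hY3
  have hp : (phi a b P Q (iv p), phi a' b' P' Q' Y) ∈ 𝔮 := hYφ ▸ hρ _ (iv_mem p)
  have hY0 : Y ≠ 0 := by
    intro h0
    rw [h0, map_zero] at hp
    have h1 := h.inj' _ hp
    have h2 := hφ.sq p
    rw [h1, zero_mul] at h2
    exact zero_ne_one h2
  obtain ⟨σ, R, hn, hR, hm, hYR⟩ := main_min hY hY0 (fun X hX => by
    obtain ⟨M, hM, hMX⟩ := h.mem_snd hX
    have hI := iv_mem p
    have s1 := SL_br hI hM
    have s2 := SL_br hI s1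
    have t1 := SL_br hY hX
    have t2 := SL_br hY t1
    have q1 : (phi a b P Q (iv p * M - M * iv p), phi a' b' P' Q' (Y * X - X * Y)) ∈ 𝔮 := by
      rw [hφ.br _ hI _ hM, hφ'.br _ hY _ hX]
      exact h.brk hp hMX
    have q2 := h.brk hp q1
    rw [← hφ.br _ hI _ s1, ← hφ'.br _ hY _ t1] at q2
    have q3 := h.brk hp q2
    rw [← hφ.br _ hI _ s2, ← hφ'.br _ hY _ t2, std1 p hM.1] at q3
    have q4 := 𝔮.smul_mem (4 : ℂ) q1
    have q5 : (4 : ℂ) • ((phi a b P Q (iv p * M - M * iv p), phi a' b' P' Q' (Y * X - X * Y)) :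
        Module.End ℂ H × Module.End ℂ H') = (phi a b P Q ((4 : ℂ) • (iv p * M - M * iv p)),
          phi a' b' P' Q' ((4 : ℂ) • (Y * X - X * Y))) := by
      rw [map_smul, map_smul]
      rfl
    rw [q5] at q4
    have q6 := h.uniq q3 q4
    have q7 := hφ'.inj (Submodule.sub_mem _ (SL_br hY t2) (Submodule.smul_mem _ (4 : ℂ) t1))
      (by rw [map_sub, q6, sub_self])
    exact sub_eq_zero.1 q7) (fun X hX hX2 Z hZ => by
    obtain ⟨M, hM, hMX⟩ := h.mem_snd hX
    obtain ⟨N, hN, hNZ⟩ := h.mem_snd hZ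
    have hI := iv_mem p
    have q1 : (phi a b P Q (iv p * M - M * iv p), phi a' b' P' Q' (Y * X - X * Y)) ∈ 𝔮 := by
      rw [hφ.br _ hI _ hM, hφ'.br _ hY _ hX]
      exact h.brk hp hMX
    rw [hX2] at q1
    have q2 := 𝔮.smul_mem (2 : ℂ) hMX
    have q3 : (2 : ℂ) • ((phi a b P Q M, phi a' b' P' Q' X) :
        Module.End ℂ H × Module.End ℂ H') = (phi a b P Q ((2 : ℂ) • M),
          phi a' b' P' Q' ((2 : ℂ) • X)) := by
      rw [map_smul, map_smul]
      rfl
    rw [q3] at q2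
    have q4 := h.uniq' q1 q2
    have q5 : iv p * M - M * iv p = (2 : ℂ) • M :=
      sub_eq_zero.1 (hφ.inj (Submodule.sub_mem _ (SL_br hI hM) (Submodule.smul_mem _ (2 : ℂ) hM))
        (by rw [map_sub, q4, sub_self]))
    have q6 := h.brk hMX hNZ
    rw [← hφ.br _ hM _ hN, ← hφ'.br _ hX _ hZ] at q6
    have q7 := h.brk hMX q6
    rw [← hφ.br _ hM _ (SL_br hM hN), ← hφ'.br _ hX _ (SL_br hX hZ), std2 p hM.1 q5 N] at q7
    have q8 := 𝔮.smul_mem (-2 * (M * N) p p) hMX
    have q9 : (-2 * (M * N) p p) • ((phi a b P Q M, phi a' b' P' Q' X) :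
        Module.End ℂ H × Module.End ℂ H') = (phi a b P Q ((-2 * (M * N) p p) • M),
          phi a' b' P' Q' ((-2 * (M * N) p p) • X)) := by
      rw [map_smul, map_smul]
      rfl
    rw [q9] at q8
    refine ⟨-2 * (M * N) p p, ?_⟩
    have q10 := h.uniq q7 q8
    exact sub_eq_zero.1 (hφ'.inj (Submodule.sub_mem _ (SL_br hX (SL_br hX hZ))
      (Submodule.smul_mem _ (-2 * (M * N) p p) hX)) (by rw [map_sub, q10, sub_self])))
  rw [hYφ, phi_apply]
  rcases hYR with hYR | hYR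
  · rw [hYR]
    exact sq_of h.car' h.ms' hn hR hm
  · rw [hYR, map_neg, map_neg, neg_mul_neg]
    exact sq_of h.car' h.ms' hn hR hm

/-- **The intertwining map.** -/
theorem Lm.exists_T [Nontrivial H] [Nontrivial H'] {m : ℕ} (hm : 2 * m = n) :
    ∃ T : H →ₗ[ℂ] H', T ≠ 0 ∧ ∀ x y, (x, y) ∈ 𝔮 → y.comp T = T.comp x := by
  obtain ⟨ρ, hρ⟩ := h.exists_rep
  obtain ⟨T, hT, h1⟩ := exists_int (phi_rp h.car h.ms) (h.rp hρ) hm
  refine ⟨T, hT, fun x y hxy => ?_⟩
  have h2 : x ∈ slC a b P Q := by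
    rw [← h.fst]
    exact ⟨_, hxy, rfl⟩
  obtain ⟨M, h4, h5, rfl⟩ := h2
  have h6 := h.uniq hxy (hρ M ⟨h4, h5⟩)
  rw [h6]
  exact LinearMap.ext fun u => h1 M ⟨h4, h5⟩ u

end Link

end Pool.Agent.H67M
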