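import Pool.Agent.H67Mid.Wt

set_option autoImplicit false
set_option linter.unusedSectionVars false
set_option linter.unusedVariables false

/-!
# The elements of a sum of Lie algebras `sl(n)` with the properties of the elements `iv p`
-/

open Module

noncomputable section

namespace Pool.Agent.H67M

open Pool.Agent.R918

section Block

variable {n : ℕ}

/-- The cubic equation implies that the matrix is the sum of a scalar and of twice an idempotent. -/
theorem cubic {y : Matrix (Fin n) (Fin n) ℂ}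
    (h : ∀ x : Matrix (Fin n) (Fin n) ℂ, y * y * y * x - (3 : ℂ) • (y * y * x * y) +
      (3 : ℂ) • (y * x * (y * y)) - x * (y * y * y) = (4 : ℂ) • (y * x - x * y)) :
    ∃ (c : ℂ) (P : Matrix (Fin n) (Fin n) ℂ), y = c • 1 + (2 : ℂ) • P ∧ P * P = P := by
  classical
  by_cases hs : y ∈ Submodule.span ℂ {(1 : Matrix (Fin n) (Fin n) ℂ)}
  · obtain ⟨c, hc⟩ := Submodule.mem_span_singleton.1 hs
    exact ⟨c, 0, by rw [← hc, smul_zero, add_zero], mul_zero 0⟩
  obtain ⟨f, hf, hf1⟩ := Submodule.exists_le_ker_of_notMem hs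
  have hf0 : f 1 = 0 := hf1 (Submodule.mem_span_singleton_self _)
  -- the matrix identities
  have key : ∀ i a : Fin n, (y * y * y) i a • (1 : Matrix (Fin n) (Fin n) ℂ) -
      (3 * (y * y) i a) • y + (3 * y i a) • (y * y) - (1 : Matrix (Fin n) (Fin n) ℂ) i a •
        (y * y * y) = (4 * y i a) • (1 : Matrix (Fin n) (Fin n) ℂ) -
          (4 * (1 : Matrix (Fin n) (Fin n) ℂ) i a) • y := by
    intro i a
    ext b j
    have h1 := congrFun (congrFun (h (Matrix.single a b 1)) i) j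
    have e1 : ∀ A B : Matrix (Fin n) (Fin n) ℂ,
        (A * Matrix.single a b 1 * B : Matrix (Fin n) (Fin n) ℂ) i j = A i a * B b j := by
      intro A B
      rw [Matrix.mul_apply, Finset.sum_eq_single b]
      · rw [Matrix.mul_single_apply_same, mul_one]
      · intro c _ hc
        rw [Matrix.mul_single_apply_of_ne _ _ _ _ _ hc, zero_mul]
      · intro h; exact absurd (Finset.mem_univ _) h
    have e2 : ∀ A : Matrix (Fin n) (Fin n) ℂ,
        (A * Matrix.single a b 1 : Matrix (Fin n) (Fin n) ℂ) i j =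
        A i a * (1 : Matrix (Fin n) (Fin n) ℂ) b j := by
      intro A
      rw [← e1 A 1, Matrix.mul_one]
    have e3 : ∀ B : Matrix (Fin n) (Fin n) ℂ,
        (Matrix.single a b 1 * B : Matrix (Fin n) (Fin n) ℂ) i j =
        (1 : Matrix (Fin n) (Fin n) ℂ) i a * B b j := by
      intro B
      rw [← e1 1 B, Matrix.one_mul]
    simp only [Matrix.sub_apply, Matrix.add_apply, Matrix.smul_apply, e1, e2, e3,
      smul_eq_mul] at h1 ⊢
    linear_combination h1
  have key2 : ∀ i a : Fin n, -(3 * (y * y) i a) * f y + (3 * y i a) * f (y * y) -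
      (1 : Matrix (Fin n) (Fin n) ℂ) i a * f (y * y * y) =
        - (4 * (1 : Matrix (Fin n) (Fin n) ℂ) i a) * f y := by
    intro i a
    have h1 := congrArg f (key i a)
    simp only [map_sub, map_add, map_smul, smul_eq_mul, hf0] at h1
    linear_combination h1
  obtain ⟨β, hβ⟩ : ∃ β, β = f (y * y) / f y := ⟨_, rfl⟩
  obtain ⟨γ, hγ⟩ : ∃ γ, γ = (4 - f (y * y * y) / f y) / 3 := ⟨_, rfl⟩
  have hy2 : y * y = β • y + γ • 1 := by
    ext i a
    have h1 := key2 i a
    rw [Matrix.add_apply, Matrix.smul_apply, Matrix.smul_apply, smul_eq_mul, smul_eq_mul, hβ, hγ]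
    field_simp
    linear_combination (-1 : ℂ) * h1
  have hy3 : y * y * y = (β * β + γ) • y + (β * γ) • 1 := by
    rw [hy2, add_mul, smul_mul_assoc, smul_mul_assoc, one_mul, hy2]
    module
  have hγ2 : β * β + 4 * γ = 4 := by
    have h1 : f (y * y * y) = (β * β + γ) * f y := by
      rw [hy3, map_add, map_smul, map_smul, hf0, smul_zero, add_zero, smul_eq_mul]
    rw [h1, mul_div_assoc, div_self hf, mul_one] at hγ
    linear_combination 3 * hγ
  refine ⟨β / 2 - 1, (1 / 4 : ℂ) • ((2 : ℂ) • y + (2 - β) • 1), ?_, ?_⟩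
  · module
  · rw [smul_mul_smul_comm]
    have h1 : ((2 : ℂ) • y + (2 - β) • (1 : Matrix (Fin n) (Fin n) ℂ)) *
        ((2 : ℂ) • y + (2 - β) • 1) = (4 : ℂ) • (y * y) + (4 * (2 - β)) • y +
          ((2 - β) * (2 - β)) • 1 := by
      simp only [add_mul, mul_add, smul_mul_assoc, mul_smul_comm, one_mul, mul_one]
      module
    rw [h1, hy2]
    have h2 : γ = 1 - β * β / 4 := by linear_combination hγ2 / 4
    rw [h2]
    module

/-- All minors of size two vanish. -/
def Minor (P : Matrix (Fin n) (Fin n) ℂ) : Prop := ∀ i j a b, P i j * P a b = P i b * P a j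

/-- The trace of an idempotent matrix of rank one. -/
theorem Minor.trace {P : Matrix (Fin n) (Fin n) ℂ} (h : Minor P) (hP : P * P = P) (h0 : P ≠ 0) :
    P.trace = 1 := by
  obtain ⟨i, b, hib⟩ : ∃ i b, P i b ≠ 0 := by
    by_contra hcon
    push Not at hcon
    exact h0 (Matrix.ext hcon)
  have h1 : P i b = P i b * P.trace := by
    conv_lhs => rw [← hP]
    rw [Matrix.mul_apply]
    unfold Matrix.trace
    rw [Finset.mul_sum]
    refine Finset.sum_congr rfl fun j _ => ?_
    rw [Matrix.diag_apply]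
    exact h i j j b
  have h2 : P i b * (P.trace - 1) = 0 := by linear_combination -h1
  exact sub_eq_zero.1 ((mul_eq_zero.1 h2).resolve_left hib)

theorem minor_of {x : Matrix (Fin n) (Fin n) ℂ} (h : ∀ z, ∃ c : ℂ, x * z * x = c • x) :
    Minor x := by
  classical
  intro i j a b
  obtain ⟨c, hc⟩ := h (Matrix.single j a 1)
  have e1 : ∀ p q, x p j * x a q = c * x p q := by
    intro p q
    have h1 := congrFun (congrFun hc p) q
    rw [Matrix.mul_apply, Finset.sum_eq_single a] at h1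
    · rw [Matrix.mul_single_apply_same, mul_one, Matrix.smul_apply, smul_eq_mul] at h1
      exact h1
    · intro c _ hc
      rw [Matrix.mul_single_apply_of_ne _ _ _ _ _ hc, zero_mul]
    · intro h; exact absurd (Finset.mem_univ _) h
  by_cases hx : ∃ p, x p j ≠ 0
  · obtain ⟨p, hp⟩ := hx
    have h1 := e1 p j
    have h2 : x a j = c := by
      have h3 : x p j * (x a j - c) = 0 := by linear_combination h1
      exact sub_eq_zero.1 ((mul_eq_zero.1 h3).resolve_left hp)
    rw [e1 i b, h2, mul_comm]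
  · push Not at hx
    rw [hx i, hx a, zero_mul, mul_zero]

/-- If all matrices `P A Q` are of rank one, then `P` or `Q` is of rank one. -/
theorem minor_or {P Q : Matrix (Fin n) (Fin n) ℂ} (h : ∀ A, Minor (P * A * Q)) :
    Minor P ∨ Minor Q := by
  classical
  by_contra hcon
  push Not at hcon
  obtain ⟨h1, h2⟩ := hcon
  unfold Minor at h1 h2
  push Not at h1 h2
  obtain ⟨i, a, k, c, h1⟩ := h1
  obtain ⟨b, j, d, l, h2⟩ := h2
  have e1 : ∀ (u v : Fin n) (p q : Fin n),
      (P * Matrix.single u v 1 * Q : Matrix (Fin n) (Fin n) ℂ) p q = P p u * Q v q := by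
    intro u v p q
    rw [Matrix.mul_apply, Finset.sum_eq_single v]
    · rw [Matrix.mul_single_apply_same, mul_one]
    · intro c _ hc
      rw [Matrix.mul_single_apply_of_ne _ _ _ _ _ hc, zero_mul]
    · intro h; exact absurd (Finset.mem_univ _) h
  have e2 : ∀ (u v u' v' : Fin n) (p q : Fin n),
      (P * (Matrix.single u v 1 + Matrix.single u' v' 1) * Q : Matrix (Fin n) (Fin n) ℂ) p q =
        P p u * Q v q + P p u' * Q v' q := by
    intro u v u' v' p q
    rw [mul_add, add_mul, Matrix.add_apply, e1, e1]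
  have g1 := h (Matrix.single a b 1 + Matrix.single c d 1) i j k l
  simp only [e2] at g1
  have h3 : (P i a * P k c - P i c * P k a) * (Q b j * Q d l - Q b l * Q d j) = 0 := by
    linear_combination g1
  rcases mul_eq_zero.1 h3 with h4 | h4
  · exact h1 (sub_eq_zero.1 h4)
  · exact h2 (sub_eq_zero.1 h4)

theorem exists_x {P : Matrix (Fin n) (Fin n) ℂ} (hP : P * P = P) (h0 : P ≠ 0) (h1 : P ≠ 1) :
    ∃ x : Matrix (Fin n) (Fin n) ℂ, x ≠ 0 ∧ P * x = x ∧ x * P = 0 := by
  classical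
  obtain ⟨i, a, hia⟩ : ∃ i a, P i a ≠ 0 := by
    by_contra hcon
    push Not at hcon
    exact h0 (Matrix.ext hcon)
  obtain ⟨b, j, hbj⟩ : ∃ b j, (1 - P) b j ≠ 0 := by
    by_contra hcon
    push Not at hcon
    exact h1 (sub_eq_zero.1 (Matrix.ext hcon)).symm
  refine ⟨P * Matrix.single a b 1 * (1 - P), fun h2 => ?_, ?_, ?_⟩
  · have h3 := congrFun (congrFun h2 i) j
    rw [Matrix.mul_apply, Finset.sum_eq_single b] at h3
    · rw [Matrix.mul_single_apply_same, mul_one, Matrix.zero_apply] at h3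
      exact (mul_ne_zero hia hbj) h3
    · intro c _ hc
      rw [Matrix.mul_single_apply_of_ne _ _ _ _ _ hc, zero_mul]
    · intro h; exact absurd (Finset.mem_univ _) h
  · rw [← mul_assoc, ← mul_assoc, hP]
  · rw [mul_assoc, sub_mul, one_mul, hP, sub_self, mul_zero]

end Block

section Emb

variable {k n : ℕ}

/-- the block of a matrix -/
def bk (M : Matrix (Fin k × Fin n) (Fin k × Fin n) ℂ) (σ : Fin k) : Matrix (Fin n) (Fin n) ℂ :=
  Matrix.of fun i j => M (σ, i) (σ, j)

/-- the matrix with one block -/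
def em (σ : Fin k) (x : Matrix (Fin n) (Fin n) ℂ) :
    Matrix (Fin k × Fin n) (Fin k × Fin n) ℂ :=
  Matrix.of fun p q => if p.1 = σ ∧ q.1 = σ then x p.2 q.2 else 0

theorem bk_apply (M : Matrix (Fin k × Fin n) (Fin k × Fin n) ℂ) (σ : Fin k) (i j : Fin n) :
    bk M σ i j = M (σ, i) (σ, j) := rfl

theorem em_apply (σ : Fin k) (x : Matrix (Fin n) (Fin n) ℂ) (p q : Fin k × Fin n) :
    em σ x p q = if p.1 = σ ∧ q.1 = σ then x p.2 q.2 else 0 := rfl

theorem em_bd (σ : Fin k) (x : Matrix (Fin n) (Fin n) ℂ) : IsBD (em σ x) := by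
  intro p q hpq
  rw [em_apply, if_neg]
  rintro ⟨h1, h2⟩
  exact hpq (h1.trans h2.symm)

theorem bk_em (σ τ : Fin k) (x : Matrix (Fin n) (Fin n) ℂ) :
    bk (em σ x) τ = if τ = σ then x else 0 := by
  ext i j
  rw [bk_apply, em_apply]
  by_cases h : τ = σ
  · rw [if_pos ⟨h, h⟩, if_pos h]
  · rw [if_neg (fun h' => h h'.1), if_neg h]
    rfl

theorem bk_mul {M N : Matrix (Fin k × Fin n) (Fin k × Fin n) ℂ} (hM : IsBD M) (σ : Fin k) :
    bk (M * N) σ = bk M σ * bk N σ := by
  ext i j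
  rw [bk_apply, Matrix.mul_apply, Matrix.mul_apply, Fintype.sum_prod_type,
    Finset.sum_eq_single σ]
  · rfl
  · intro τ _ hτ
    refine Finset.sum_eq_zero fun l _ => ?_
    rw [hM _ _ (Ne.symm hτ), zero_mul]
  · intro h; exact absurd (Finset.mem_univ _) h

theorem bk_sub (M N : Matrix (Fin k × Fin n) (Fin k × Fin n) ℂ) (σ : Fin k) :
    bk (M - N) σ = bk M σ - bk N σ := rfl

theorem bk_add (M N : Matrix (Fin k × Fin n) (Fin k × Fin n) ℂ) (σ : Fin k) :
    bk (M + N) σ = bk M σ + bk N σ := rfl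

theorem bk_smul (c : ℂ) (M : Matrix (Fin k × Fin n) (Fin k × Fin n) ℂ) (σ : Fin k) :
    bk (c • M) σ = c • bk M σ := rfl

theorem bk_ext {M N : Matrix (Fin k × Fin n) (Fin k × Fin n) ℂ} (hM : IsBD M) (hN : IsBD N)
    (h : ∀ σ, bk M σ = bk N σ) : M = N := by
  ext p q
  by_cases hpq : p.1 = q.1
  · have h1 := congrFun (congrFun (h p.1) p.2) q.2
    rw [bk_apply, bk_apply] at h1
    have e1 : ((p.1, p.2) : Fin k × Fin n) = p := rfl
    have e2 : ((p.1, q.2) : Fin k × Fin n) = q := Prod.ext hpq rfl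
    rwa [e1, e2] at h1
  · rw [hM p q hpq, hN p q hpq]

theorem btr_bk (σ : Fin k) (M : Matrix (Fin k × Fin n) (Fin k × Fin n) ℂ) :
    btr σ M = (bk M σ).trace := by
  rw [btr_sum]
  rfl

theorem em_mem {σ : Fin k} {x : Matrix (Fin n) (Fin n) ℂ} (h : x.trace = 0) :
    em σ x ∈ SL k n := by
  refine ⟨em_bd σ x, fun τ => ?_⟩
  rw [btr_bk, bk_em]
  split_ifs
  · exact h
  · exact Matrix.trace_zero _ _

/-- **The form of the elements with the two properties.** -/
theorem main_min {Y : Matrix (Fin k × Fin n) (Fin k × Fin n) ℂ} (hY : Y ∈ SL k n) (h0 : Y ≠ 0)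
    (H1 : ∀ X ∈ SL k n, Y * (Y * (Y * X - X * Y) - (Y * X - X * Y) * Y) -
      (Y * (Y * X - X * Y) - (Y * X - X * Y) * Y) * Y = (4 : ℂ) • (Y * X - X * Y))
    (H2 : ∀ X ∈ SL k n, Y * X - X * Y = (2 : ℂ) • X → ∀ Z ∈ SL k n,
      ∃ c : ℂ, X * (X * Z - Z * X) - (X * Z - Z * X) * X = c • X) :
    ∃ (σ : Fin k) (P : Matrix (Fin n) (Fin n) ℂ), (n : ℂ) ≠ 0 ∧ P * P = P ∧ Minor P ∧
      (Y = (2 : ℂ) • em σ P - (2 / n : ℂ) • em σ 1 ∨
        Y = -((2 : ℂ) • em σ P - (2 / n : ℂ) • em σ 1)) := by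
  classical
  -- the traceless part of a matrix
  have hn0 : ∀ σ : Fin k, bk Y σ ≠ 0 → (n : ℂ) ≠ 0 := by
    intro σ hσ hn
    apply hσ
    ext i j
    have := i.2
    have h1 : n = 0 := by exact_mod_cast hn
    omega
  have key : ∀ σ, ∃ (c : ℂ) (P : Matrix (Fin n) (Fin n) ℂ), bk Y σ = c • 1 + (2 : ℂ) • P ∧
      P * P = P := by
    intro σ
    by_cases hσ : bk Y σ = 0
    · exact ⟨0, 0, by rw [hσ, zero_smul, smul_zero, add_zero], mul_zero 0⟩
    have hn := hn0 σ hσ
    refine cubic fun x => ?_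
    obtain ⟨t, ht⟩ : ∃ t, t = x.trace / n := ⟨_, rfl⟩
    have hx : (x - t • (1 : Matrix (Fin n) (Fin n) ℂ)).trace = 0 := by
      rw [Matrix.trace_sub, Matrix.trace_smul, Matrix.trace_one, Fintype.card_fin, ht, smul_eq_mul,
        div_mul_cancel₀ _ hn, sub_self]
    have h1 := congrArg (fun M => bk M σ) (H1 _ (em_mem (σ := σ) hx))
    have hB := hY.1
    have hE := em_bd σ (x - t • (1 : Matrix (Fin n) (Fin n) ℂ))
    simp only [bk_sub, bk_smul, bk_mul hB, bk_mul hE, bk_mul ((hB.mul hE).sub (hE.mul hB)),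
      bk_mul ((hB.mul ((hB.mul hE).sub (hE.mul hB))).sub (((hB.mul hE).sub (hE.mul hB)).mul hB)),
      bk_em, if_true] at h1
    generalize bk Y σ = y at h1
    simp only [mul_sub, sub_mul, mul_smul_comm, smul_mul_assoc, mul_one, one_mul] at h1
    simp only [mul_assoc] at h1 ⊢
    have h2 : y * (y * (y * x)) - (3 : ℂ) • (y * (y * (x * y))) + (3 : ℂ) • (y * (x * (y * y))) -
        x * (y * (y * y)) - (4 : ℂ) • (y * x - x * y) = 0 := by
      rw [← sub_eq_zero] at h1
      rw [← h1]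
      module
    exact sub_eq_zero.1 h2
  choose c P hP hPP using key
  -- elements of the eigenspace
  have hx2 : ∀ σ (x : Matrix (Fin n) (Fin n) ℂ), P σ * x = x → x * P σ = 0 →
      em σ x ∈ SL k n ∧ Y * em σ x - em σ x * Y = (2 : ℂ) • em σ x := by
    intro σ x h1 h2
    refine ⟨em_mem ?_, bk_ext ((hY.1.mul (em_bd σ x)).sub ((em_bd σ x).mul hY.1))
      ((em_bd σ x).smul _) fun τ => ?_⟩
    · rw [← h1, Matrix.trace_mul_comm, h2, Matrix.trace_zero]
    · rw [bk_sub, bk_mul hY.1, bk_mul (em_bd σ x), bk_smul, bk_em]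
      by_cases hτ : τ = σ
      · subst hτ
        rw [if_pos rfl, hP τ, add_mul, mul_add, smul_mul_assoc, smul_mul_assoc, mul_smul_comm,
          mul_smul_comm, h1, h2, one_mul, mul_one]
        module
      · rw [if_neg hτ, mul_zero, zero_mul, sub_zero, smul_zero]
  have hxx : ∀ σ (x : Matrix (Fin n) (Fin n) ℂ), P σ * x = x → x * P σ = 0 → x * x = 0 := by
    intro σ x h1 h2
    conv_lhs =>
      congr
      · skip
      · rw [← h1]
    rw [← mul_assoc, h2, zero_mul]
  -- scalar blocks vanish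
  have hsc : ∀ σ, P σ = 0 ∨ P σ = 1 → bk Y σ = 0 := by
    intro σ h1
    by_contra hσ
    have hn := hn0 σ hσ
    have h2 := hY.2 σ
    rw [btr_bk] at h2
    obtain ⟨t, ht⟩ : ∃ t : ℂ, bk Y σ = t • 1 := by
      rcases h1 with h1 | h1
      · exact ⟨c σ, by rw [hP σ, h1, smul_zero, add_zero]⟩
      · exact ⟨c σ + 2, by rw [hP σ, h1, add_smul]⟩
    rw [ht, Matrix.trace_smul, Matrix.trace_one, Fintype.card_fin, smul_eq_mul] at h2
    have h3 := (mul_eq_zero.1 h2).resolve_right hn
    exact hσ (by rw [ht, h3, zero_smul])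
  obtain ⟨σ, hσ0, hσ1⟩ : ∃ σ, P σ ≠ 0 ∧ P σ ≠ 1 := by
    by_contra hcon
    push Not at hcon
    refine h0 (bk_ext hY.1 IsBD.zero fun σ => ?_)
    refine hsc σ ?_
    by_cases h1 : P σ = 0
    · exact Or.inl h1
    · exact Or.inr (hcon σ h1)
  have hn := hn0 σ (fun h1 => by
    -- the block is not zero
    have h2 := hP σ
    rw [h1] at h2
    have h3 : P σ = (-(c σ) / 2) • 1 := by
      have h4 : (2 : ℂ) • P σ = -(c σ • (1 : Matrix (Fin n) (Fin n) ℂ)) :=
        eq_neg_of_add_eq_zero_right h2.symm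
      have h5 : P σ = (1 / 2 : ℂ) • ((2 : ℂ) • P σ) := by module
      rw [h5, h4]
      module
    obtain ⟨t, ht⟩ : ∃ t, t = -(c σ) / 2 := ⟨_, rfl⟩
    rw [← ht] at h3
    have h4 := hPP σ
    rw [h3, smul_mul_smul_comm, mul_one] at h4
    by_cases ht0 : t = 0
    · exact hσ0 (by rw [h3, ht0, zero_smul])
    · have h5 : (1 : Matrix (Fin n) (Fin n) ℂ) = t • 1 := by
        have h6 := congrArg (fun M : Matrix (Fin n) (Fin n) ℂ => t⁻¹ • M) h4
        simp only [smul_smul] at h6
        rw [← mul_assoc, inv_mul_cancel₀ ht0, one_mul, one_smul] at h6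
        exact h6.symm
      exact hσ1 (by rw [h3, ← h5]))
  -- only one block
  have hone : ∀ τ, τ ≠ σ → bk Y τ = 0 := by
    intro τ hτ
    by_contra hne
    have hτ0 : P τ ≠ 0 := fun h1 => hne (hsc τ (Or.inl h1))
    have hτ1 : P τ ≠ 1 := fun h1 => hne (hsc τ (Or.inr h1))
    obtain ⟨x, hx, hx1, hx2'⟩ := exists_x (hPP σ) hσ0 hσ1
    obtain ⟨x', hx', hx1', hx2''⟩ := exists_x (hPP τ) hτ0 hτ1
    obtain ⟨g1, g2⟩ := hx2 σ x hx1 hx2'
    obtain ⟨g3, g4⟩ := hx2 τ x' hx1' hx2''
    obtain ⟨i, j, hij⟩ : ∃ i j, x i j ≠ 0 := by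
      by_contra hcon
      push Not at hcon
      exact hx (Matrix.ext hcon)
    obtain ⟨t, ht⟩ : ∃ t, t = (Matrix.single j i (1 : ℂ)).trace / n := ⟨_, rfl⟩
    have hz : (Matrix.single j i (1 : ℂ) - t • (1 : Matrix (Fin n) (Fin n) ℂ)).trace = 0 := by
      rw [Matrix.trace_sub, Matrix.trace_smul, Matrix.trace_one, Fintype.card_fin, ht, smul_eq_mul,
        div_mul_cancel₀ _ hn, sub_self]
    have hB : IsBD (em σ x + em τ x') := (em_bd σ x).add (em_bd τ x')
    have hE := em_bd σ (Matrix.single j i (1 : ℂ) - t • (1 : Matrix (Fin n) (Fin n) ℂ))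
    obtain ⟨e, he⟩ := H2 (em σ x + em τ x') ((SL k n).add_mem g1 g3) (by
      rw [mul_add, add_mul, add_sub_add_comm, g2, g4, smul_add]) _ (em_mem (σ := σ) hz)
    have a1 := congrArg (fun M => bk M τ) he
    have a2 := congrArg (fun M => bk M σ) he
    simp only [bk_sub, bk_smul, bk_add, bk_mul hB, bk_mul hE, bk_mul ((hB.mul hE).sub (hE.mul hB)),
      bk_em, if_true, if_neg hτ, if_neg (Ne.symm hτ), mul_zero, zero_mul, sub_zero, zero_add,
      add_zero, sub_self] at a1 a2
    have he0 : e = 0 := (smul_eq_zero.1 a1.symm).resolve_right hx'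
    rw [he0, zero_smul] at a2
    have hxx' := hxx σ x hx1 hx2'
    have a3 : x * Matrix.single j i (1 : ℂ) * x = 0 := by
      simp only [mul_sub, sub_mul, mul_smul_comm, smul_mul_assoc, mul_one, one_mul] at a2
      have a4 : x * (x * Matrix.single j i (1 : ℂ)) = 0 := by rw [← mul_assoc, hxx', zero_mul]
      have a5 : Matrix.single j i (1 : ℂ) * x * x = 0 := by rw [mul_assoc, hxx', mul_zero]
      rw [a4, a5, ← mul_assoc, hxx'] at a2
      have a6 : (-2 : ℂ) • (x * Matrix.single j i (1 : ℂ) * x) = 0 := by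
        rw [← a2]
        module
      exact (smul_eq_zero.1 a6).resolve_left (by norm_num)
    have a4 := congrFun (congrFun a3 i) j
    rw [Matrix.mul_apply, Finset.sum_eq_single i] at a4
    · rw [Matrix.mul_single_apply_same, mul_one, Matrix.zero_apply] at a4
      exact hij (mul_self_eq_zero.1 a4)
    · intro c _ hc
      rw [Matrix.mul_single_apply_of_ne _ _ _ _ _ hc, zero_mul]
    · intro h; exact absurd (Finset.mem_univ _) h
  have hYe : ∀ y, bk Y σ = y → Y = em σ y := by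
    intro y hy
    refine bk_ext hY.1 (em_bd _ _) fun τ => ?_
    rw [bk_em]
    by_cases hτ : τ = σ
    · rw [if_pos hτ, hτ, hy]
    · rw [if_neg hτ, hone τ hτ]
  -- the minors
  have hmin : Minor (P σ) ∨ Minor (1 - P σ) := by
    refine minor_or fun A => minor_of fun z => ?_
    have hx1 : P σ * (P σ * A * (1 - P σ)) = P σ * A * (1 - P σ) := by
      rw [← mul_assoc, ← mul_assoc, hPP]
    have hx2' : P σ * A * (1 - P σ) * P σ = 0 := by
      rw [mul_assoc, sub_mul, one_mul, hPP, sub_self, mul_zero]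
    obtain ⟨g1, g2⟩ := hx2 σ _ hx1 hx2'
    have hxx' := hxx σ _ hx1 hx2'
    generalize P σ * A * (1 - P σ) = x at *
    obtain ⟨t, ht⟩ : ∃ t, t = z.trace / n := ⟨_, rfl⟩
    have hz : (z - t • (1 : Matrix (Fin n) (Fin n) ℂ)).trace = 0 := by
      rw [Matrix.trace_sub, Matrix.trace_smul, Matrix.trace_one, Fintype.card_fin, ht, smul_eq_mul,
        div_mul_cancel₀ _ hn, sub_self]
    obtain ⟨e, he⟩ := H2 _ g1 g2 _ (em_mem (σ := σ) hz)
    have hB := em_bd σ x
    have hE := em_bd σ (z - t • (1 : Matrix (Fin n) (Fin n) ℂ))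
    have a2 := congrArg (fun M => bk M σ) he
    simp only [bk_sub, bk_smul, bk_mul hB, bk_mul hE, bk_mul ((hB.mul hE).sub (hE.mul hB)),
      bk_em, if_true] at a2
    refine ⟨-(e / 2), ?_⟩
    simp only [mul_sub, sub_mul, mul_smul_comm, smul_mul_assoc, mul_one, one_mul] at a2
    have a4 : x * (x * z) = 0 := by rw [← mul_assoc, hxx', zero_mul]
    have a5 : z * x * x = 0 := by rw [mul_assoc, hxx', mul_zero]
    rw [a4, a5, ← mul_assoc, hxx'] at a2
    have a6 : x * z * x = (-(1 / 2) : ℂ) • ((-2 : ℂ) • (x * z * x)) := by module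
    have a7 : (-2 : ℂ) • (x * z * x) = e • x := by
      rw [← a2]
      module
    rw [a6, a7]
    module
  have htr := hY.2 σ
  rw [btr_bk, hP σ, Matrix.trace_add, Matrix.trace_smul, Matrix.trace_smul, Matrix.trace_one,
    Fintype.card_fin, smul_eq_mul, smul_eq_mul] at htr
  have hlin : ∀ (u v : ℂ) (A B : Matrix (Fin n) (Fin n) ℂ), em σ (u • A + v • B) =
      u • em σ A + v • em σ B := by
    intro u v A B
    ext p q
    rw [Matrix.add_apply, Matrix.smul_apply, Matrix.smul_apply, em_apply, em_apply, em_apply]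
    split_ifs
    · rfl
    · simp
  rcases hmin with hmin | hmin
  · refine ⟨σ, P σ, hn, hPP σ, hmin, Or.inl ?_⟩
    rw [hmin.trace (hPP σ) hσ0] at htr
    have hc : c σ = -(2 / n) := by
      field_simp
      linear_combination htr
    rw [hYe _ (hP σ), hlin, hc]
    module
  · have hQQ : (1 - P σ) * (1 - P σ) = 1 - P σ := by
      rw [mul_sub, sub_mul, sub_mul, mul_one, one_mul, hPP, mul_one, sub_self, sub_zero]
    refine ⟨σ, 1 - P σ, hn, hQQ, hmin, Or.inr ?_⟩
    have h1 := hmin.trace hQQ (sub_ne_zero.2 (Ne.symm hσ1))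
    rw [Matrix.trace_sub, Matrix.trace_one, Fintype.card_fin] at h1
    have hc : c σ = 2 / n - 2 := by
      field_simp
      linear_combination htr + 2 * h1
    have h2 : bk Y σ = (2 / n : ℂ) • (1 : Matrix (Fin n) (Fin n) ℂ) + (-2 : ℂ) • (1 - P σ) := by
      rw [hP σ, hc]
      module
    rw [hYe _ h2, hlin]
    module

end Emb

end Pool.Agent.H67M
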