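import Pool.Agent.H67Mid.Ty

set_option autoImplicit false
set_option linter.unusedSectionVars false
set_option linter.unusedVariables false

/-!
# Lie algebras of middle exterior type with at most one colour have no ideals
-/

open Module Function TensorProduct

noncomputable section

namespace Pool.Agent.H67M

open Pool.Agent.Y102 Pool.Agent.W516.DR Pool.Agent.H204R3.GP Pool.Agent.W516.KC
  Pool.Agent.H204R3.SP Pool.Agent.N192.GP

section Ideal

variable {k n : ℕ}

theorem D1 {M : Matrix (Fin k × Fin n) (Fin k × Fin n) ℂ} {p q : Fin k × Fin n} (hpq : p ≠ q) :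
    un q p * (un q p * M - M * un q p) - (un q p * M - M * un q p) * un q p =
      (-2 * M p q) • un q p := by
  have hs : un q p * un q p = 0 := by rw [un_mul, if_neg hpq]
  have g5 : un q p * M * un q p = (M p q) • un q p := by
    ext u v
    rw [Matrix.smul_apply, un_apply]
    unfold un
    by_cases h2 : v = p
    · subst h2
      rw [Matrix.mul_single_apply_same, mul_one]
      by_cases h3 : u = q
      · subst h3
        rw [Matrix.single_mul_apply_same, one_mul, if_pos ⟨rfl, rfl⟩, smul_eq_mul, mul_one]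
      · rw [Matrix.single_mul_apply_of_ne _ _ _ _ _ h3, if_neg (fun h4 => h3 h4.1), smul_zero]
    · rw [Matrix.mul_single_apply_of_ne _ _ _ _ _ h2, if_neg (fun h4 => h2 h4.2), smul_zero]
  have g6 : un q p * (un q p * M) = 0 := by rw [← mul_assoc, hs, zero_mul]
  have g7 : M * un q p * un q p = 0 := by rw [mul_assoc, hs, mul_zero]
  rw [mul_sub, sub_mul, g6, g7, ← mul_assoc, g5, mul_smul]
  module

theorem D2 {M : Matrix (Fin k × Fin n) (Fin k × Fin n) ℂ} {p q : Fin k × Fin n}
    (hoff : ∀ a b, a ≠ b → M a b = 0) :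
    un p q * M - M * un p q = (M q q - M p p) • un p q := by
  ext u v
  rw [Matrix.sub_apply, Matrix.smul_apply, un_apply]
  unfold un
  have e1 : (Matrix.single p q (1 : ℂ) * M) u v = if u = p then M q v else 0 := by
    by_cases hu : u = p
    · subst hu
      rw [Matrix.single_mul_apply_same, one_mul, if_pos rfl]
    · rw [Matrix.single_mul_apply_of_ne _ _ _ _ _ hu, if_neg hu]
  have e2 : (M * Matrix.single p q (1 : ℂ)) u v = if v = q then M u p else 0 := by
    by_cases hv : v = q
    · subst hv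
      rw [Matrix.mul_single_apply_same, mul_one, if_pos rfl]
    · rw [Matrix.mul_single_apply_of_ne _ _ _ _ _ hv, if_neg hv]
  rw [e1, e2]
  by_cases hu : u = p
  · by_cases hv : v = q
    · rw [if_pos hu, if_pos hv, if_pos ⟨hu, hv⟩, hu, hv, smul_eq_mul, mul_one]
    · rw [if_pos hu, if_neg hv, if_neg fun h => hv h.2, hoff _ _ (Ne.symm hv), sub_zero,
        smul_zero]
  · by_cases hv : v = q
    · rw [if_neg hu, if_pos hv, if_neg fun h => hu h.1, hoff _ _ hu, sub_zero, smul_zero]
    · rw [if_neg hu, if_neg hv, if_neg fun h => hu h.1, sub_zero, smul_zero]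

/-- `sl(n)` has no ideals. -/
theorem ideal_top [Subsingleton (Fin k)]
    {K : Submodule ℂ (Matrix (Fin k × Fin n) (Fin k × Fin n) ℂ)} (hK : K ≤ SL k n)
    (hI : ∀ X ∈ SL k n, ∀ M ∈ K, X * M - M * X ∈ K) (hne : K ≠ ⊥) : SL k n ≤ K := by
  have hc : ∀ p q : Fin k × Fin n, p.1 = q.1 := fun p q => Subsingleton.elim _ _
  have hnz : ∀ p : Fin k × Fin n, (n : ℂ) ≠ 0 := by
    intro p
    have := p.2.2
    exact_mod_cast (by omega : n ≠ 0)
  -- a matrix unit
  have h1 : ∃ r s : Fin k × Fin n, r ≠ s ∧ un r s ∈ K := by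
    obtain ⟨M, hM, hM0⟩ := (Submodule.ne_bot_iff K).1 hne
    by_cases hoff : ∃ p q, p ≠ q ∧ M p q ≠ 0
    · obtain ⟨p, q, hpq, h⟩ := hoff
      refine ⟨q, p, Ne.symm hpq, ?_⟩
      have h1 := hI _ (un_mem (Ne.symm hpq) (hc q p)) _
        (hI _ (un_mem (Ne.symm hpq) (hc q p)) _ hM)
      rw [D1 hpq] at h1
      exact (Submodule.smul_mem_iff _ (mul_ne_zero (by norm_num) h)).1 h1
    · push Not at hoff
      by_contra hcon
      push Not at hcon
      apply hM0
      have hd : ∀ p q, M p p = M q q := by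
        intro p q
        by_cases hpq : p = q
        · rw [hpq]
        by_contra hne
        have h1 := hI _ (un_mem hpq (hc p q)) _ hM
        rw [D2 hoff] at h1
        exact hcon p q hpq ((Submodule.smul_mem_iff _ (sub_ne_zero.2 (Ne.symm hne))).1 h1)
      ext p q
      rw [Matrix.zero_apply]
      by_cases hpq : p = q
      · subst hpq
        have h1 := (hK hM).2 p.1
        rw [R918.btr_sum, Finset.sum_congr rfl fun i _ => hd (p.1, i) p, Finset.sum_const,
          Finset.card_univ, Fintype.card_fin, nsmul_eq_mul] at h1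
        exact (mul_eq_zero.1 h1).resolve_left (hnz p)
      · exact hoff p q hpq
  have hA : ∀ {r s : Fin k × Fin n}, un r s ∈ K → r ≠ s → ∀ t, t ≠ s → t ≠ r → un t s ∈ K := by
    intro r s h hrs t hts htr
    have h2 := hI _ (un_mem htr (hc t r)) _ h
    rwa [un_mul, un_mul, if_pos rfl, if_neg (Ne.symm hts), sub_zero] at h2
  have hB : ∀ {r s : Fin k × Fin n}, un r s ∈ K → r ≠ s → ∀ t, t ≠ s → t ≠ r → un r t ∈ K := by
    intro r s h hrs t hts htr
    have h2 := hI _ (un_mem (Ne.symm hts) (hc s t)) _ h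
    rw [un_mul, un_mul, if_pos rfl, if_neg htr, zero_sub] at h2
    rwa [neg_mem_iff] at h2
  have hC : ∀ {r s : Fin k × Fin n}, un r s ∈ K → r ≠ s → un s r ∈ K := by
    intro r s h hrs
    have h2 := hI _ (un_mem (Ne.symm hrs) (hc s r)) _
        (hI _ (un_mem (Ne.symm hrs) (hc s r)) _ h)
    rw [D1 hrs, un_apply, if_pos ⟨rfl, rfl⟩] at h2
    exact (Submodule.smul_mem_iff _ (by norm_num)).1 h2
  have hall : ∀ t u : Fin k × Fin n, t ≠ u → un t u ∈ K := by
    obtain ⟨r, s, hrs, h1⟩ := h1
    intro t u htu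
    by_cases hus : u = s
    · subst hus
      by_cases htr : t = r
      · rw [htr]
        exact h1
      · exact hA h1 hrs t htu htr
    · by_cases htr : t = r
      · subst htr
        exact hB h1 hrs u hus (Ne.symm htu)
      · by_cases hts : t = s
        · subst hts
          by_cases hur : u = r
          · rw [hur]
            exact hC h1 hrs
          · exact hB (hC h1 hrs) (Ne.symm hrs) u hur hus
        · have h2 := hA h1 hrs t hts htr
          exact hB h2 hts u hus (Ne.symm htu)
  have hiv : ∀ p : Fin k × Fin n, iv p ∈ K := by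
    intro p
    have h2 : ∀ i : Fin n, iv p - iv ((p.1, i) : Fin k × Fin n) ∈ K := by
      intro i
      by_cases hp : p = (p.1, i)
      · rw [← hp, sub_self]
        exact Submodule.zero_mem _
      · have h3 := hI _ (un_mem hp rfl) _ (hall _ _ (Ne.symm hp))
        rw [un_br (hc p (p.1, i))] at h3
        exact (Submodule.smul_mem_iff _ (by norm_num)).1 h3
    have h3 := Submodule.sum_mem K fun i (_ : i ∈ Finset.univ) => h2 i
    rw [Finset.sum_sub_distrib, iv_sum, sub_zero, Finset.sum_const, Finset.card_univ,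
      Fintype.card_fin, ← Nat.cast_smul_eq_nsmul ℂ] at h3
    exact (Submodule.smul_mem_iff _ (hnz p)).1 h3
  intro M hM
  rw [expand hM]
  refine Submodule.sum_mem _ fun p _ => Submodule.sum_mem _ fun q _ => ?_
  by_cases hpq : p = q
  · rw [if_pos hpq]
    exact Submodule.smul_mem _ _ (hiv p)
  · rw [if_neg hpq]
    exact Submodule.smul_mem _ _ (hall p q hpq)

end Ideal

theorem bc_eq_zero {W : Type} [AddCommGroup W] [Module ℚ W] [FiniteDimensional ℚ W]
    {X : Module.End ℚ W} (h : X.baseChange ℂ = 0) : X = 0 := by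
  have h1 : X ∈ (⊥ : Submodule ℚ (Module.End ℚ W)) := mem_of_bc (by
    rw [h]
    exact Submodule.zero_mem _)
  exact (Submodule.mem_bot ℚ).1 h1

/-- Lie algebras of middle exterior type with one colour. -/
theorem MidK.noIdeals {W : Type} [AddCommGroup W] [Module ℚ W] [FiniteDimensional ℚ W]
    {𝔤 : Submodule ℚ (Module.End ℚ W)} {k m : ℕ} (h : MidK 𝔤 k m) (hk : k ≤ 1) :
    NoIdeals 𝔤 := by
  have hss : Subsingleton (Fin k) := ⟨fun a b => Fin.ext (by omega)⟩
  intro I hI
  obtain ⟨N, a, b, P, Q, hcar, hms, hg⟩ := h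
  rcases subsingleton_or_nontrivial (ℂ ⊗[ℚ] W) with hs | hn
  · refine Or.inl (eq_bot_iff.2 fun X hX => ?_)
    rw [Submodule.mem_bot]
    exact bc_eq_zero (LinearMap.ext fun v => Subsingleton.elim _ _)
  by_cases h0 : I = ⊥
  · exact Or.inl h0
  refine Or.inr (cx_inj ?_)
  rw [hg]
  have h1 : Idl (cx I) (R918.slC a b P Q) := hg ▸ cx_idl hI
  have h2 : SL k (2 * m) ≤ (cx I).comap (phi a b P Q) ⊓ SL k (2 * m) := by
    refine ideal_top inf_le_right (fun X hX M hM => ⟨?_, SL_br hX hM.2⟩) ?_
    · rw [SetLike.mem_coe, Submodule.mem_comap, (phi_rp hcar hms).br X hX M hM.2]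
      exact h1.2 _ (phi_mem hX) _ hM.1
    · obtain ⟨Y, hY, hY0⟩ := (Submodule.ne_bot_iff I).1 h0
      obtain ⟨M, hM, hYM⟩ := mem_phi (h1.1 (bc_mem hY))
      rw [Submodule.ne_bot_iff]
      refine ⟨M, ⟨?_, hM⟩, fun hM0 => hY0 (bc_eq_zero ?_)⟩
      · rw [SetLike.mem_coe, Submodule.mem_comap, ← hYM]
        exact bc_mem hY
      · rw [hYM, hM0, map_zero]
  refine le_antisymm h1.1 fun x hx => ?_
  obtain ⟨M, hM, rfl⟩ := mem_phi hx
  exact (h2 hM).1

end Pool.Agent.H67M
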