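import Pool.Agent.H67Mid.Lk
import Pool.Agent.N192.GP.Exc
import Pool.Agent.N192.GP.TorW
import Pool.Agent.N166.ME.Main

set_option autoImplicit false
set_option linter.unusedSectionVars false
set_option linter.unusedVariables false

/-!
# Lie algebras of middle exterior type over the rational numbers, and links between them
-/

open Module Function TensorProduct

noncomputable section

namespace Pool.Agent.H67M

open Pool.Agent.Y102 Pool.Agent.W516.DR Pool.Agent.H204R3.GP Pool.Agent.W516.KC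
  Pool.Agent.H204R3.SP Pool.Agent.N192.GP

/-- The Lie algebra is of middle exterior type. -/
def MidK {W : Type} [AddCommGroup W] [Module ℚ W] (𝔤 : Submodule ℚ (Module.End ℚ W))
    (k m : ℕ) : Prop :=
  ∃ (N : ℕ) (a b : Fin k × Fin (2 * m) → Module.End ℂ (Fin N → ℂ))
    (P : (Fin N → ℂ) →ₗ[ℂ] (ℂ ⊗[ℚ] W)) (Q : (ℂ ⊗[ℚ] W) →ₗ[ℂ] (Fin N → ℂ)),
    R918.Car a b ∧ R918.MidSet a b P Q ∧ cx 𝔤 = R918.slC a b P Q

theorem phi_mem {k n : ℕ} {U H : Type} [AddCommGroup U] [Module ℂ U] [AddCommGroup H]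
    [Module ℂ H] {a b : Fin k × Fin n → Module.End ℂ U} {P : U →ₗ[ℂ] H} {Q : H →ₗ[ℂ] U}
    {M : Matrix (Fin k × Fin n) (Fin k × Fin n) ℂ} (hM : M ∈ SL k n) :
    phi a b P Q M ∈ R918.slC a b P Q := ⟨M, hM.1, hM.2, rfl⟩

theorem mem_phi {k n : ℕ} {U H : Type} [AddCommGroup U] [Module ℂ U] [AddCommGroup H]
    [Module ℂ H] {a b : Fin k × Fin n → Module.End ℂ U} {P : U →ₗ[ℂ] H} {Q : H →ₗ[ℂ] U}
    {x : Module.End ℂ H} (hx : x ∈ R918.slC a b P Q) : ∃ M ∈ SL k n, x = phi a b P Q M := by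
  obtain ⟨M, h1, h2, h3⟩ := hx
  exact ⟨M, ⟨h1, h2⟩, h3⟩

section Fam

variable {T : Type} [Fintype T] [DecidableEq T] {n : T → ℕ}
  {η : ∀ t, Basis (Fin (n t)) ℂ ((Fin (n t) → ℚ) →ₗ[ℚ] ℂ)}

theorem zero_of_cmpE {W : Type} [AddCommGroup W] [Module ℚ W] [FiniteDimensional ℚ W]
    {Y : Module.End ℂ (ℂ ⊗[ℚ] W)} (h1 : ∀ lam : ℂ →ₗ[ℚ] ℚ, cmpE lam Y = 0) : Y = 0 := by
  have h2 : ∀ w, Y ((1 : ℂ) ⊗ₜ[ℚ] w) = 0 := fun w => eq_zero_of_cmp fun lam =>
    LinearMap.congr_fun (h1 lam) w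
  refine LinearMap.ext fun z => ?_
  induction z with
  | zero => rw [map_zero, map_zero]
  | add z z' hz hz' => rw [map_add, map_add, hz, hz']
  | tmul a w =>
    have h3 : a ⊗ₜ[ℚ] w = a • ((1 : ℂ) ⊗ₜ[ℚ] w) := by rw [smul_tmul', smul_eq_mul, mul_one]
    rw [h3, map_smul, h2, smul_zero, LinearMap.zero_apply]

/-- The intertwining map over the rational numbers. -/
theorem exists_f {s t : T} (h : Linked η s t) {k m k' m' : ℕ} (hs : MidK (gg η s) k m)
    (ht : MidK (gg η t) k' m')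
    [Nontrivial (ℂ ⊗[ℚ] (Fin (n s) → ℚ))] [Nontrivial (ℂ ⊗[ℚ] (Fin (n t) → ℚ))] :
    ∃ f : (Fin (n s) → ℚ) →ₗ[ℚ] (Fin (n t) → ℚ), f ≠ 0 ∧
      ∀ X Y, (X, Y) ∈ (LG η).map (prq s t) → Y.comp f = f.comp X := by
  obtain ⟨N, a, b, P, Q, hcar, hms, hg⟩ := hs
  obtain ⟨N', a', b', P', Q', hcar', hms', hg'⟩ := ht
  have hLm : Lm a b P Q a' b' P' Q' (cx2 ((LG η).map (prq s t))) := by
    refine ⟨hcar, hms, hcar', hms', cx2_br qq_br, ?_, ?_, fun Y hY => ?_, fun X hX => ?_⟩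
    · rw [cx2_fst, qq_fst, hg]
    · rw [cx2_snd, qq_snd, hg']
    · refine zero_of_cmpE fun lam => ?_
      have h2 := cx2_comp hY lam
      have h3 : cmpE lam (0 : Module.End ℂ (ℂ ⊗[ℚ] (Fin (n s) → ℚ))) = 0 :=
        LinearMap.ext fun w => by rw [cmpE_apply, LinearMap.zero_apply, map_zero]; rfl
      simp only at h2
      rw [h3] at h2
      exact h.inj h2
    · refine zero_of_cmpE fun lam => ?_
      have h2 := cx2_comp hX lam
      have h3 : cmpE lam (0 : Module.End ℂ (ℂ ⊗[ℚ] (Fin (n t) → ℚ))) = 0 :=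
        LinearMap.ext fun w => by rw [cmpE_apply, LinearMap.zero_apply, map_zero]; rfl
      simp only at h2
      rw [h3] at h2
      exact h.inj' h2
  obtain ⟨f₀, hf₀, hf₁⟩ := hLm.exists_T rfl
  -- the components
  let F : (ℂ →ₗ[ℚ] ℚ) → (Fin (n s) → ℚ) →ₗ[ℚ] (Fin (n t) → ℚ) := fun lam =>
    cmp lam ∘ₗ (f₀.restrictScalars ℚ) ∘ₗ (TensorProduct.mk ℚ ℂ (Fin (n s) → ℚ) 1)
  have hF : ∀ lam w, F lam w = cmp lam (f₀ ((1 : ℂ) ⊗ₜ[ℚ] w)) := fun _ _ => rfl
  obtain ⟨lam, hlam⟩ : ∃ lam, F lam ≠ 0 := by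
    by_contra hcon
    push Not at hcon
    have h2 : ∀ w, f₀ ((1 : ℂ) ⊗ₜ[ℚ] w) = 0 := fun w => eq_zero_of_cmp fun lam =>
        LinearMap.congr_fun (hcon lam) w
    refine hf₀ (LinearMap.ext fun z => ?_)
    induction z with
    | zero => rw [map_zero, map_zero]
    | add z z' hz hz' => rw [map_add, map_add, hz, hz']
    | tmul a w =>
      have h3 : a ⊗ₜ[ℚ] w = a • ((1 : ℂ) ⊗ₜ[ℚ] w) := by rw [smul_tmul', smul_eq_mul, mul_one]
      rw [h3, map_smul, h2, smul_zero, LinearMap.zero_apply]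
  refine ⟨F lam, hlam, fun X Y hXY => LinearMap.ext fun w => ?_⟩
  have h1 := LinearMap.congr_fun (hf₁ _ _ (cx2_mem hXY)) ((1 : ℂ) ⊗ₜ[ℚ] w)
  rw [LinearMap.comp_apply, LinearMap.comp_apply] at h1
  simp only [LinearMap.baseChange_tmul] at h1
  have h2 := congrArg (cmp lam) h1
  rw [cmp_bcg] at h2
  exact h2

theorem NN_of_f {s t : T} {f : (Fin (n s) → ℚ) →ₗ[ℚ] (Fin (n t) → ℚ)}
    (hf1 : ∀ X Y, (X, Y) ∈ (LG η).map (prq s t) → Y.comp f = f.comp X)
    (D : Derivation QBar ℂ ℂ) (lam : ℂ →ₗ[ℚ] ℚ) :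
    (NN (η t) D lam).comp f = f.comp (NN (η s) D lam) := by
  have h1 := hf1 _ _ (⟨gn η D lam, gn_mem_LG η D lam, rfl⟩ :
    (pr s (gn η D lam), pr t (gn η D lam)) ∈ (LG η).map (prq s t))
  refine LinearMap.ext fun w => ?_
  have h2 := LinearMap.congr_fun h1 w
  simp only [pr_apply, LinearMap.comp_apply, LinearMap.sub_apply, LinearMap.smul_apply,
    Module.End.one_apply, map_sub, map_smul] at h2
  exact sub_left_injective h2

/-- **Links respect the Hodge structures.** -/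
theorem link_compat {s t : T} (h : Linked η s t) {k m k' m' : ℕ} (hs : MidK (gg η s) k m)
    (ht : MidK (gg η t) k' m') (hsimple : NoIdeals (gg η t)) {ι : Type}
    {Js : ι → Module.End ℚ (Fin (n s) → ℚ)} {Jt : ι → Module.End ℚ (Fin (n t) → ℚ)}
    (hJs : ∀ l, Js l ∈ gg η s) (hJt : ∀ l, Jt l ∈ gg η t)
    (H1 : ∀ f : (Fin (n s) → ℚ) →ₗ[ℚ] (Fin (n t) → ℚ),
      (∀ (D : Derivation QBar ℂ ℂ) (lam : ℂ →ₗ[ℚ] ℚ),
        (NN (η t) D lam).comp f = f.comp (NN (η s) D lam)) → ∀ l, (Jt l).comp f = f.comp (Js l))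
    (H2 : ∀ f : (Fin (n s) → ℚ) →ₗ[ℚ] (Fin (n t) → ℚ), (∀ l, (Jt l).comp f = 0) → f = 0) (l : ι) :
    (Js l, Jt l) ∈ (LG η).map (prq s t) := by
  have hzero : gg η s = ⊥ → gg η t = ⊥ → (Js l, Jt l) ∈ (LG η).map (prq s t) := by
    intro h1 h2
    have e1 := hJs l
    have e2 := hJt l
    rw [h1, Submodule.mem_bot] at e1
    rw [h2, Submodule.mem_bot] at e2
    rw [e1, e2]
    exact Submodule.zero_mem _
  by_cases hns : Nontrivial (ℂ ⊗[ℚ] (Fin (n s) → ℚ))
  swap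
  · exact hzero (gg_bot hns) (h.bot (gg_bot hns))
  by_cases hnt : Nontrivial (ℂ ⊗[ℚ] (Fin (n t) → ℚ))
  swap
  · exact hzero (h.symm.bot (gg_bot hnt)) (gg_bot hnt)
  obtain ⟨f, hf, hf1⟩ := exists_f h hs ht
  have hJ := H1 f (NN_of_f hf1)
  -- the ideal of the elements which kill the image
  let K : Submodule ℚ (Module.End ℚ (Fin (n t) → ℚ)) :=
    { carrier := {Z | Z ∈ gg η t ∧ Z.comp f = 0}
      zero_mem' := ⟨Submodule.zero_mem _, LinearMap.zero_comp f⟩
      add_mem' := fun {a b} ha hb => ⟨Submodule.add_mem _ ha.1 hb.1, by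
        rw [LinearMap.add_comp, ha.2, hb.2, add_zero]⟩
      smul_mem' := fun c a ha => ⟨Submodule.smul_mem _ c ha.1, by
        rw [LinearMap.smul_comp, ha.2, smul_zero]⟩ }
  have hK : Idl K (gg η t) := by
    refine ⟨fun Z hZ => hZ.1, fun W hW Z hZ => ⟨gg_br t W hW Z hZ.1, ?_⟩⟩
    have hW' := hW
    rw [← qq_snd (s := s)] at hW'
    obtain ⟨⟨V, W'⟩, hp, rfl⟩ := hW'
    have h1 := hf1 _ _ hp
    change ((W' * Z - Z * W' : Module.End ℚ (Fin (n t) → ℚ))).comp f = 0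
    have h2 : Z.comp f = 0 := hZ.2
    rw [LinearMap.sub_comp, Module.End.mul_eq_comp, Module.End.mul_eq_comp, LinearMap.comp_assoc,
      LinearMap.comp_assoc, h2, h1, ← LinearMap.comp_assoc, h2, LinearMap.comp_zero,
      LinearMap.zero_comp, sub_zero]
  rcases hsimple K hK with h1 | h1
  · have h2 := hJs l
    rw [← qq_fst (t := t)] at h2
    obtain ⟨⟨X, Y⟩, hp, hX⟩ := h2
    have hX' : X = Js l := hX
    subst hX'
    have h3 : Y ∈ gg η t := by
      rw [← qq_snd (s := s)]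
      exact ⟨_, hp, rfl⟩
    have h4 : Y - Jt l ∈ K := by
      refine ⟨Submodule.sub_mem _ h3 (hJt l), ?_⟩
      rw [LinearMap.sub_comp, hf1 _ _ hp, hJ, sub_self]
    rw [h1, Submodule.mem_bot, sub_eq_zero] at h4
    rw [← h4]
    exact hp
  · exfalso
    refine hf (H2 f fun l => ?_)
    have h2 := hJt l
    rw [← h1] at h2
    exact h2.2

end Fam

/-! ### The dimension -/

section Dim

variable {k n : ℕ}

/-- The block diagonal matrices. -/
def bdm (k n : ℕ) : (Fin k → Matrix (Fin n) (Fin n) ℂ) →ₗ[ℂ]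
    Matrix (Fin k × Fin n) (Fin k × Fin n) ℂ where
  toFun x := Matrix.of fun p q => if p.1 = q.1 then x p.1 p.2 q.2 else 0
  map_add' x y := by
    ext p q
    simp only [Matrix.of_apply, Matrix.add_apply, Pi.add_apply]
    split_ifs
    · rfl
    · rw [add_zero]
  map_smul' c x := by
    ext p q
    simp only [Matrix.of_apply, Matrix.smul_apply, Pi.smul_apply, RingHom.id_apply]
    split_ifs
    · rfl
    · rw [smul_zero]

theorem bdm_apply (x : Fin k → Matrix (Fin n) (Fin n) ℂ) (p q : Fin k × Fin n) :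
    bdm k n x p q = if p.1 = q.1 then x p.1 p.2 q.2 else 0 := rfl

/-- The traces. -/
def trm (k n : ℕ) : (Fin k → Matrix (Fin n) (Fin n) ℂ) →ₗ[ℂ] (Fin k → ℂ) :=
  LinearMap.pi fun σ => (Matrix.traceLinearMap (Fin n) ℂ ℂ).comp (LinearMap.proj σ)

theorem finrank_SL_ge (k n : ℕ) : k * (n ^ 2 - 1) ≤ finrank ℂ (SL k n) := by
  have h1 := LinearMap.finrank_range_add_finrank_ker (trm k n)
  have h2 := Submodule.finrank_le (LinearMap.range (trm k n))
  rw [Module.finrank_pi, Fintype.card_fin] at h2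
  have h3 : finrank ℂ (Fin k → Matrix (Fin n) (Fin n) ℂ) = k * n ^ 2 := by
    rw [Module.finrank_pi_fintype]
    simp only [Module.finrank_matrix, Fintype.card_fin, finrank_self, Finset.sum_const,
      Finset.card_univ, smul_eq_mul]
    ring
  rw [h3] at h1
  have h4 : finrank ℂ (LinearMap.ker (trm k n)) ≤ finrank ℂ (SL k n) := by
    let f : LinearMap.ker (trm k n) →ₗ[ℂ] SL k n :=
      { toFun := fun x => ⟨bdm k n x.1, by
          refine ⟨fun p q hpq => ?_, fun σ => ?_⟩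
          · rw [bdm_apply, if_neg hpq]
          · rw [R918.btr_sum]
            have h5 : trm k n x.1 = 0 := x.2
            have h6 := congrFun h5 σ
            change ∑ i, x.1 σ i i = 0 at h6
            rw [← h6]
            refine Finset.sum_congr rfl fun i _ => ?_
            rw [bdm_apply, if_pos rfl]⟩
        map_add' := fun x y => Subtype.ext (map_add (bdm k n) x.1 y.1)
        map_smul' := fun c x => Subtype.ext (map_smul (bdm k n) c x.1) }
    refine LinearMap.finrank_le_finrank_of_injective (f := f) fun x y hxy => ?_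
    have h5 : bdm k n x.1 = bdm k n y.1 := congrArg Subtype.val hxy
    refine Subtype.ext (funext fun σ => ?_)
    ext i j
    have h6 := congrFun (congrFun h5 (σ, i)) (σ, j)
    rw [bdm_apply, bdm_apply, if_pos rfl, if_pos rfl] at h6
    exact h6
  have h5 : k * (n ^ 2 - 1) = k * n ^ 2 - k := by rw [Nat.mul_sub, mul_one]
  omega

/-- The dimension of a Lie algebra of middle exterior type. -/
theorem MidK.dim {W : Type} [AddCommGroup W] [Module ℚ W] [FiniteDimensional ℚ W]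
    {𝔤 : Submodule ℚ (Module.End ℚ W)} {k m : ℕ} (h : MidK 𝔤 k m)
    [Nontrivial (ℂ ⊗[ℚ] W)] : k * (4 * m ^ 2 - 1) ≤ finrank ℚ 𝔤 := by
  obtain ⟨N, a, b, P, Q, hcar, hms, hg⟩ := h
  rw [← finrank_cx, hg]
  have h1 := finrank_SL_ge k (2 * m)
  have h2 : (2 * m) ^ 2 = 4 * m ^ 2 := by ring
  rw [h2] at h1
  refine h1.trans ?_
  let f : SL k (2 * m) →ₗ[ℂ] R918.slC a b P Q :=
    { toFun := fun M => ⟨phi a b P Q M.1, phi_mem M.2⟩
      map_add' := fun x y => Subtype.ext (map_add (phi a b P Q) x.1 y.1)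
      map_smul' := fun c x => Subtype.ext (map_smul (phi a b P Q) c x.1) }
  refine LinearMap.finrank_le_finrank_of_injective (f := f) fun x y hxy => ?_
  have h5 : phi a b P Q x.1 = phi a b P Q y.1 := congrArg Subtype.val hxy
  refine Subtype.ext (sub_eq_zero.1 ((phi_rp hcar hms).inj (Submodule.sub_mem _ x.2 y.2) ?_))
  rw [map_sub, h5, sub_self]

end Dim

end Pool.Agent.H67M
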