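import Pool.Agent.R918.Mid3

set_option autoImplicit false
set_option linter.unusedSectionVars false
set_option linter.unusedVariables false

/-!
# Representations of a sum of Lie algebras `sl(n)` in which certain elements are involutions: weights
-/

open Module

noncomputable section

namespace Pool.Agent.H67M

open Pool.Agent.R918

variable {k n : ℕ}

/-- The sum of `k` Lie algebras `sl(n)`. -/
def SL (k n : ℕ) : Submodule ℂ (Matrix (Fin k × Fin n) (Fin k × Fin n) ℂ) where
  carrier := {M | IsBD M ∧ ∀ σ, btr σ M = 0}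
  zero_mem' := ⟨IsBD.zero, fun σ => map_zero _⟩
  add_mem' h h' := ⟨h.1.add h'.1, fun σ => by rw [map_add, h.2, h'.2, add_zero]⟩
  smul_mem' c _ h := ⟨h.1.smul c, fun σ => by rw [map_smul, h.2, smul_zero]⟩

theorem mem_SL {M : Matrix (Fin k × Fin n) (Fin k × Fin n) ℂ} :
    M ∈ SL k n ↔ IsBD M ∧ ∀ σ, btr σ M = 0 := Iff.rfl

theorem SL_br {M N : Matrix (Fin k × Fin n) (Fin k × Fin n) ℂ} (h : M ∈ SL k n)
    (h' : N ∈ SL k n) : M * N - N * M ∈ SL k n :=
  ⟨(h.1.mul h'.1).sub (h'.1.mul h.1), fun σ => btr_bracket σ h.1 h'.1⟩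

/-- The matrix units. -/
def un (p q : Fin k × Fin n) : Matrix (Fin k × Fin n) (Fin k × Fin n) ℂ := Matrix.single p q 1

theorem un_apply (p q a b : Fin k × Fin n) : un p q a b = if a = p ∧ b = q then 1 else 0 := by
  unfold un
  rw [Matrix.single_apply]
  congr 1
  exact propext ⟨fun h => ⟨h.1.symm, h.2.symm⟩, fun h => ⟨h.1.symm, h.2.symm⟩⟩

theorem un_bd {p q : Fin k × Fin n} (hc : p.1 = q.1) : IsBD (un p q) := by
  intro a b hab
  rw [un_apply, if_neg]
  rintro ⟨h1, h2⟩
  exact hab (by rw [h1, h2, hc])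

theorem un_mem {p q : Fin k × Fin n} (hpq : p ≠ q) (hc : p.1 = q.1) : un p q ∈ SL k n := by
  refine ⟨un_bd hc, fun σ => ?_⟩
  rw [btr_sum]
  refine Finset.sum_eq_zero fun i _ => ?_
  rw [un_apply, if_neg]
  rintro ⟨h1, h2⟩
  exact hpq (h1.symm.trans h2)

/-- The involutions. -/
def iv (p : Fin k × Fin n) : Matrix (Fin k × Fin n) (Fin k × Fin n) ℂ :=
  (2 : ℂ) • un p p - (2 / n : ℂ) • pj k n p.1

theorem pj_apply (σ : Fin k) (a b : Fin k × Fin n) :
    pj k n σ a b = if a = b ∧ a.1 = σ then 1 else 0 := by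
  unfold pj
  rw [Matrix.diagonal_apply]
  by_cases h : a = b
  · by_cases h' : a.1 = σ
    · rw [if_pos h, if_pos h', if_pos ⟨h, h'⟩]
    · rw [if_pos h, if_neg h', if_neg fun h2 => h' h2.2]
  · rw [if_neg h, if_neg fun h2 => h h2.1]

theorem iv_bd (p : Fin k × Fin n) : IsBD (iv p) :=
  ((un_bd rfl).smul _).sub ((isBD_pj _).smul _)

theorem iv_mem (p : Fin k × Fin n) : iv p ∈ SL k n := by
  refine ⟨iv_bd p, fun σ => ?_⟩
  have hn : (n : ℂ) ≠ 0 := by
    have := p.2.2
    exact_mod_cast (by omega : n ≠ 0)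
  unfold iv
  rw [map_sub, map_smul, map_smul, btr_sum, btr_sum]
  by_cases h : σ = p.1
  · subst h
    rw [Finset.sum_eq_single p.2]
    · rw [un_apply, if_pos ⟨rfl, rfl⟩]
      have h1 : ∀ i : Fin n, pj k n p.1 (p.1, i) (p.1, i) = 1 := fun i => by
        rw [pj_apply, if_pos ⟨rfl, rfl⟩]
      rw [Finset.sum_congr rfl fun i _ => h1 i, Finset.sum_const, Finset.card_univ,
        Fintype.card_fin, nsmul_eq_mul, smul_eq_mul, smul_eq_mul]
      field_simp
      ring
    · intro i _ hi
      rw [un_apply, if_neg]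
      rintro ⟨h1, h2⟩
      exact hi (congrArg Prod.snd h1)
    · intro h; exact absurd (Finset.mem_univ _) h
  · rw [Finset.sum_eq_zero, Finset.sum_eq_zero, smul_zero, smul_zero, sub_zero]
    · intro i _
      rw [pj_apply, if_neg]
      rintro ⟨h1, h2⟩
      exact h h2
    · intro i _
      rw [un_apply, if_neg]
      rintro ⟨h1, h2⟩
      exact h (congrArg Prod.fst h1)

theorem iv_apply (p a b : Fin k × Fin n) : iv p a b =
    2 * (if a = p ∧ b = p then 1 else 0) - 2 / n * (if a = b ∧ a.1 = p.1 then 1 else 0) := by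
  unfold iv
  rw [Matrix.sub_apply, Matrix.smul_apply, Matrix.smul_apply, un_apply, pj_apply, smul_eq_mul,
    smul_eq_mul]

theorem iv_sum (σ : Fin k) : ∑ i : Fin n, iv ((σ, i) : Fin k × Fin n) = 0 := by
  ext a b
  rw [Matrix.sum_apply, Matrix.zero_apply]
  simp only [iv_apply, Finset.sum_sub_distrib, ← Finset.mul_sum]
  by_cases h : a = b ∧ a.1 = σ
  · obtain ⟨rfl, rfl⟩ := h
    have hn : (n : ℂ) ≠ 0 := by
      have := a.2.2
      exact_mod_cast (by omega : n ≠ 0)
    have h1 : ∑ i : Fin n, (if a = (a.1, i) ∧ a = (a.1, i) then (1 : ℂ) else 0) = 1 := by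
      rw [Finset.sum_eq_single a.2]
      · simp
      · intro i _ hi
        rw [if_neg]
        rintro ⟨h1, -⟩
        exact hi (congrArg Prod.snd h1).symm
      · intro h; exact absurd (Finset.mem_univ _) h
    rw [h1]
    simp
    field_simp
    ring
  · rw [Finset.sum_eq_zero, Finset.sum_eq_zero]
    · ring
    · intro i _
      rw [if_neg]
      exact h
    · intro i _
      rw [if_neg]
      rintro ⟨h1, h2⟩
      exact h ⟨h1.trans h2.symm, congrArg Prod.fst h1⟩

theorem un_mul (p q r s : Fin k × Fin n) : un p q * un r s = if q = r then un p s else 0 := by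
  unfold un
  by_cases h : q = r
  · subst h
    rw [if_pos rfl, Matrix.single_mul_single_same, one_mul]
  · rw [if_neg h, Matrix.single_mul_single_of_ne _ _ _ _ h]

theorem iv_un (r : Fin k × Fin n) {p q : Fin k × Fin n} (hc : p.1 = q.1) :
    iv r * un p q - un p q * iv r =
      ((if r = p then 2 else 0) - (if r = q then 2 else 0) : ℂ) • un p q := by
  unfold iv
  rw [sub_mul, mul_sub, smul_mul_assoc, smul_mul_assoc, mul_smul_comm, mul_smul_comm,
    pj_comm _ (un_bd hc), un_mul, un_mul]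
  by_cases h1 : r = p
  · by_cases h2 : r = q
    · subst h1; subst h2
      simp
    · subst h1
      rw [if_pos rfl, if_neg (Ne.symm h2), if_pos rfl, if_neg h2]
      simp
  · by_cases h2 : r = q
    · subst h2
      rw [if_neg h1, if_pos rfl, if_neg h1, if_pos rfl]
      module
    · rw [if_neg h1, if_neg (Ne.symm h2), if_neg h1, if_neg h2]
      simp

theorem un_br {p q : Fin k × Fin n} (hc : p.1 = q.1) :
    un p q * un q p - un q p * un p q = (1 / 2 : ℂ) • (iv p - iv q) := by
  rw [un_mul, un_mul, if_pos rfl, if_pos rfl]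
  unfold iv
  rw [hc]
  module

theorem iv_iv (p q : Fin k × Fin n) : iv p * iv q - iv q * iv p = 0 := by
  have h1 := iv_un p (p := q) (q := q) rfl
  rw [sub_self, zero_smul] at h1
  conv_lhs => rw [show iv q = (2 : ℂ) • un q q - (2 / n : ℂ) • pj k n q.1 from rfl]
  rw [mul_sub, sub_mul, mul_smul_comm, smul_mul_assoc, mul_smul_comm, smul_mul_assoc,
    pj_comm _ (iv_bd p)]
  have h2 : iv p * un q q = un q q * iv p := sub_eq_zero.1 h1
  rw [h2, sub_self]

/-! ### Representations -/

section Rep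

variable {U : Type} [AddCommGroup U] [Module ℂ U]

/-- A representation in which the involutions have square one. -/
structure Rp (ρ : Matrix (Fin k × Fin n) (Fin k × Fin n) ℂ →ₗ[ℂ] Module.End ℂ U) : Prop where
  br : ∀ M ∈ SL k n, ∀ N ∈ SL k n, ρ (M * N - N * M) = ρ M * ρ N - ρ N * ρ M
  sq : ∀ p, ρ (iv p) * ρ (iv p) = 1

variable {ρ : Matrix (Fin k × Fin n) (Fin k × Fin n) ℂ →ₗ[ℂ] Module.End ℂ U}

/-- Vectors of the weight given by a set. -/
def Wt (ρ : Matrix (Fin k × Fin n) (Fin k × Fin n) ℂ →ₗ[ℂ] Module.End ℂ U)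
    (S : Finset (Fin k × Fin n)) (u : U) : Prop :=
  ∀ p, ρ (iv p) u = (if p ∈ S then (1 : ℂ) else -1) • u

theorem Rp.sq' (h : Rp ρ) (p : Fin k × Fin n) (u : U) : ρ (iv p) (ρ (iv p) u) = u :=
  LinearMap.congr_fun (h.sq p) u

theorem Rp.comm (h : Rp ρ) (p q : Fin k × Fin n) (u : U) :
    ρ (iv p) (ρ (iv q) u) = ρ (iv q) (ρ (iv p) u) := by
  have h1 := h.br _ (iv_mem p) _ (iv_mem q)
  rw [iv_iv, map_zero] at h1
  exact LinearMap.congr_fun (sub_eq_zero.1 h1.symm) u

theorem Rp.iv_un (h : Rp ρ) (r : Fin k × Fin n) {p q : Fin k × Fin n} (hpq : p ≠ q)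
    (hc : p.1 = q.1) (u : U) : ρ (iv r) (ρ (un p q) u) = ρ (un p q) (ρ (iv r) u) +
      ((if r = p then 2 else 0) - (if r = q then 2 else 0) : ℂ) • ρ (un p q) u := by
  have h1 := h.br _ (iv_mem r) _ (un_mem hpq hc)
  rw [H67M.iv_un r hc, map_smul] at h1
  have h2 := LinearMap.congr_fun h1 u
  rw [LinearMap.smul_apply, LinearMap.sub_apply, Module.End.mul_apply, Module.End.mul_apply] at h2
  rw [h2]
  abel

/-- The weight of the image of a matrix unit. -/
theorem Rp.wt_un (h : Rp ρ) {S : Finset (Fin k × Fin n)} {u : U} (hu : Wt ρ S u)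
    {p q : Fin k × Fin n} (hpq : p ≠ q) (hc : p.1 = q.1) (r : Fin k × Fin n) :
    ρ (iv r) (ρ (un p q) u) = ((if r ∈ S then (1 : ℂ) else -1) + ((if r = p then 2 else 0) -
      (if r = q then 2 else 0))) • ρ (un p q) u := by
  rw [h.iv_un r hpq hc, hu r, map_smul, ← add_smul]

theorem eq_zero_of_sq {c : ℂ} (hc : c * c ≠ 1) {u v : U} (h1 : u = c • v) (h2 : v = c • u) :
    v = 0 := by
  have h3 : (1 - c * c) • v = 0 := by
    rw [sub_smul, one_smul, mul_smul, ← h1, ← h2, sub_self]
  exact (smul_eq_zero.1 h3).resolve_left (sub_ne_zero.2 (Ne.symm hc))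

theorem Rp.kill (h : Rp ρ) {S : Finset (Fin k × Fin n)} {u : U} (hu : Wt ρ S u)
    {p q : Fin k × Fin n} (hpq : p ≠ q) (hc : p.1 = q.1) (hS : p ∈ S ∨ q ∉ S) :
    ρ (un p q) u = 0 := by
  rcases hS with hS | hS
  · have h1 := h.wt_un hu hpq hc p
    rw [if_pos hS, if_pos rfl, if_neg hpq] at h1
    have h2 := h.sq' p (ρ (un p q) u)
    rw [h1, map_smul, h1, smul_smul] at h2
    have h3 : ((1 + (2 - 0)) * (1 + (2 - 0)) - 1 : ℂ) • ρ (un p q) u = 0 := by
      rw [sub_smul, h2, one_smul, sub_self]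
    exact (smul_eq_zero.1 h3).resolve_left (by norm_num)
  · have h1 := h.wt_un hu hpq hc q
    rw [if_neg hS, if_neg (Ne.symm hpq), if_pos rfl] at h1
    have h2 := h.sq' q (ρ (un p q) u)
    rw [h1, map_smul, h1, smul_smul] at h2
    have h3 : ((-1 + (0 - 2)) * (-1 + (0 - 2)) - 1 : ℂ) • ρ (un p q) u = 0 := by
      rw [sub_smul, h2, one_smul, sub_self]
    exact (smul_eq_zero.1 h3).resolve_left (by norm_num)

/-- Moving an element of the set. -/
theorem Rp.move (h : Rp ρ) {S : Finset (Fin k × Fin n)} {u : U} (hu : Wt ρ S u)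
    {p q : Fin k × Fin n} (hpq : p ≠ q) (hc : p.1 = q.1) (hp : p ∉ S) (hq : q ∈ S) :
    Wt ρ (insert p (S.erase q)) (ρ (un p q) u) ∧ ρ (un q p) (ρ (un p q) u) = u := by
  constructor
  · intro r
    rw [h.wt_un hu hpq hc r]
    congr 1
    by_cases h1 : r = p
    · subst h1
      rw [if_neg hp, if_pos rfl, if_neg hpq, if_pos (Finset.mem_insert_self _ _)]
      norm_num
    · by_cases h2 : r = q
      · subst h2
        rw [if_pos hq, if_neg h1, if_pos rfl, if_neg]
        · norm_num
        · rw [Finset.mem_insert, not_or]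
          exact ⟨h1, Finset.notMem_erase _ _⟩
      · rw [if_neg h1, if_neg h2, sub_zero, add_zero]
        congr 1
        rw [Finset.mem_insert, Finset.mem_erase]
        exact propext ⟨fun h3 => Or.inr ⟨h2, h3⟩, fun h3 => (h3.resolve_left h1).2⟩
  · have h1 := h.br _ (un_mem hpq hc) _ (un_mem (Ne.symm hpq) hc.symm)
    rw [un_br hc, map_smul, map_sub] at h1
    have h2 := LinearMap.congr_fun h1 u
    rw [LinearMap.smul_apply, LinearMap.sub_apply, LinearMap.sub_apply, Module.End.mul_apply,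
      Module.End.mul_apply, hu p, hu q, if_neg hp, if_pos hq,
      h.kill hu (Ne.symm hpq) hc.symm (Or.inl hq), map_zero, zero_sub, ← sub_smul, smul_smul] at h2
    have h3 : (1 / 2 * (-1 - 1) : ℂ) = -1 := by norm_num
    rw [h3, neg_one_smul, neg_inj] at h2
    exact h2.symm

/-- The number of elements of each colour. -/
theorem Rp.card (h : Rp ρ) {S : Finset (Fin k × Fin n)} {u : U} (hu : Wt ρ S u) (h0 : u ≠ 0)
    (σ : Fin k) : 2 * (Finset.univ.filter fun i : Fin n => (σ, i) ∈ S).card = n := by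
  have h1 := congrArg (fun M => ρ M u) (iv_sum (n := n) σ)
  simp only [map_sum, map_zero, LinearMap.sum_apply, LinearMap.zero_apply] at h1
  rw [Finset.sum_congr rfl fun i _ => hu (σ, i), ← Finset.sum_smul] at h1
  have h2 := (smul_eq_zero.1 h1).resolve_right h0
  have h3 : ∀ i : Fin n, (if ((σ, i) : Fin k × Fin n) ∈ S then (1 : ℂ) else -1) =
      2 * (if ((σ, i) : Fin k × Fin n) ∈ S then 1 else 0) - 1 := by
    intro i
    split_ifs <;> norm_num
  rw [Finset.sum_congr rfl fun i _ => h3 i, Finset.sum_sub_distrib, ← Finset.mul_sum,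
    Finset.sum_boole, Finset.sum_const, Finset.card_univ, Fintype.card_fin, nsmul_eq_mul, mul_one]
    at h2
  have h4 : ((2 * (Finset.univ.filter fun i : Fin n => (σ, i) ∈ S).card : ℕ) : ℂ) = (n : ℂ) := by
    push_cast
    exact sub_eq_zero.1 h2
  exact_mod_cast h4

/-- A stable subspace. -/
def Stb (ρ : Matrix (Fin k × Fin n) (Fin k × Fin n) ℂ →ₗ[ℂ] Module.End ℂ U)
    (A : Submodule ℂ U) : Prop := ∀ M ∈ SL k n, ∀ u ∈ A, ρ M u ∈ A

/-- It is enough to consider the weight vectors. -/
theorem Rp.le_of_wt (h : Rp ρ) {A B : Submodule ℂ U} (hB : Stb ρ B)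
    (hAB : ∀ S, ∀ u ∈ B, Wt ρ S u → u ∈ A) : B ≤ A := by
  classical
  have key : ∀ Q : Finset (Fin k × Fin n), ∀ S : Finset (Fin k × Fin n), ∀ u ∈ B,
      (∀ p, p ∉ Q → ρ (iv p) u = (if p ∈ S then (1 : ℂ) else -1) • u) → u ∈ A := by
    intro Q
    induction Q using Finset.induction_on with
    | empty =>
      intro S u hu h1
      exact hAB S u hu fun p => h1 p (Finset.notMem_empty p)
    | insert q Q hq ih =>
      intro S u hu h1
      have h2 : u = (1 / 2 : ℂ) • (u + ρ (iv q) u) + (1 / 2 : ℂ) • (u - ρ (iv q) u) := by module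
      rw [h2]
      refine A.add_mem (A.smul_mem _ ?_) (A.smul_mem _ ?_)
      · refine ih (insert q S) _ (B.add_mem hu (hB _ (iv_mem q) u hu)) fun p hp => ?_
        rw [map_add]
        by_cases hpq : p = q
        · subst hpq
          rw [h.sq', if_pos (Finset.mem_insert_self _ _), one_smul, add_comm]
        · have h3 := h1 p (by
            rw [Finset.mem_insert, not_or]
            exact ⟨hpq, hp⟩)
          have h4 : (if p ∈ insert q S then (1 : ℂ) else -1) = if p ∈ S then 1 else -1 := by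
            congr 1
            rw [Finset.mem_insert]
            exact propext ⟨fun h5 => h5.resolve_left hpq, Or.inr⟩
          rw [h.comm, h3, map_smul, h4, smul_add]
      · refine ih (S.erase q) _ (B.sub_mem hu (hB _ (iv_mem q) u hu)) fun p hp => ?_
        rw [map_sub]
        by_cases hpq : p = q
        · subst hpq
          rw [h.sq', if_neg (Finset.notMem_erase _ _)]
          module
        · have h3 := h1 p (by
            rw [Finset.mem_insert, not_or]
            exact ⟨hpq, hp⟩)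
          have h4 : (if p ∈ S.erase q then (1 : ℂ) else -1) = if p ∈ S then 1 else -1 := by
            congr 1
            rw [Finset.mem_erase]
            exact propext ⟨fun h5 => h5.2, fun h5 => ⟨hpq, h5⟩⟩
          rw [h.comm, h3, map_smul, h4, smul_sub]
  intro u hu
  exact key Finset.univ ∅ u hu fun p hp => absurd (Finset.mem_univ p) hp

/-- The highest weight. -/
def top (k n m : ℕ) : Finset (Fin k × Fin n) := Finset.univ.filter fun p => (p.2 : ℕ) < m

theorem mem_top {m : ℕ} {p : Fin k × Fin n} : p ∈ top k n m ↔ (p.2 : ℕ) < m := by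
  unfold top
  rw [Finset.mem_filter]
  exact ⟨fun h => h.2, fun h => ⟨Finset.mem_univ _, h⟩⟩

theorem exists_move {m : ℕ} (hm : 2 * m = n) {S : Finset (Fin k × Fin n)}
    (hS : ∀ σ : Fin k, 2 * (Finset.univ.filter fun i : Fin n => (σ, i) ∈ S).card = n)
    (hne : S ≠ top k n m) : ∃ p q : Fin k × Fin n, p.1 = q.1 ∧ (p.2 : ℕ) < q.2 ∧ p ∉ S ∧ q ∈ S := by
  classical
  have hT : ∀ σ : Fin k, (Finset.univ.filter fun i : Fin n => (i : ℕ) < m).card = m := by
    intro σ
    have h1 : (Finset.univ.filter fun i : Fin n => (i : ℕ) < m).map ⟨Fin.val, Fin.val_injective⟩ =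
        Finset.range m := by
      ext a
      rw [Finset.mem_map, Finset.mem_range]
      constructor
      · rintro ⟨i, hi, rfl⟩
        exact (Finset.mem_filter.1 hi).2
      · intro ha
        exact ⟨⟨a, by omega⟩, Finset.mem_filter.2 ⟨Finset.mem_univ _, ha⟩, rfl⟩
    have h2 := congrArg Finset.card h1
    rwa [Finset.card_map, Finset.card_range] at h2
  by_contra hcon
  push Not at hcon
  refine hne (Finset.ext fun p => ?_)
  have hcard : ∀ σ : Fin k, (Finset.univ.filter fun i : Fin n => (σ, i) ∈ S).card = m := by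
    intro σ
    have := hS σ
    omega
  have key : ∀ σ : Fin k, (Finset.univ.filter fun i : Fin n => (i : ℕ) < m) =
      Finset.univ.filter fun i : Fin n => (σ, i) ∈ S := by
    intro σ
    by_cases hsub : (Finset.univ.filter fun i : Fin n => (i : ℕ) < m) ⊆
        Finset.univ.filter fun i : Fin n => (σ, i) ∈ S
    · exact Finset.eq_of_subset_of_card_le hsub (by rw [hT σ, hcard σ])
    · exfalso
      obtain ⟨i, hi, hi'⟩ := Finset.not_subset.1 hsub
      have hi1 : (i : ℕ) < m := (Finset.mem_filter.1 hi).2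
      have hi2 : ((σ, i) : Fin k × Fin n) ∉ S := fun h =>
        hi' (Finset.mem_filter.2 ⟨Finset.mem_univ _, h⟩)
      have h1 : (Finset.univ.filter fun i : Fin n => (σ, i) ∈ S) ⊆
          (Finset.univ.filter fun i : Fin n => (i : ℕ) < m).erase i := by
        intro j hj
        have hj1 := (Finset.mem_filter.1 hj).2
        have h2 := hcon (σ, i) (σ, j) rfl
        by_contra h3
        rw [Finset.mem_erase, Finset.mem_filter] at h3
        push Not at h3
        have hji : j ≠ i := fun h => hi2 (h ▸ hj1)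
        have h4 := h3 hji (Finset.mem_univ _)
        exact h2 (by change (i : ℕ) < j; omega) hi2 hj1
      have h2 := Finset.card_le_card h1
      rw [Finset.card_erase_of_mem hi, hT σ, hcard σ] at h2
      omega
  rw [mem_top]
  have h1 := Finset.ext_iff.1 (key p.1) p.2
  rw [Finset.mem_filter, Finset.mem_filter] at h1
  have h2 : ((p.1, p.2) : Fin k × Fin n) = p := rfl
  rw [h2] at h1
  exact ⟨fun h => (h1.2 ⟨Finset.mem_univ _, h⟩).2, fun h => (h1.1 ⟨Finset.mem_univ _, h⟩).2⟩

/-- **Stable subspaces are determined by their highest weight vectors.** -/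
theorem Rp.le_of_top (h : Rp ρ) {m : ℕ} (hm : 2 * m = n) {A B : Submodule ℂ U} (hA : Stb ρ A)
    (hB : Stb ρ B) (hAB : ∀ u ∈ B, Wt ρ (top k n m) u → u ∈ A) : B ≤ A := by
  classical
  refine h.le_of_wt hB ?_
  have key : ∀ N : ℕ, ∀ S : Finset (Fin k × Fin n), (∑ p ∈ S, (p.2 : ℕ)) = N →
      ∀ u ∈ B, Wt ρ S u → u ∈ A := by
    intro N
    induction N using Nat.strong_induction_on with
    | _ N ih =>
      intro S hN u hu hS
      by_cases h0 : u = 0
      · rw [h0]
        exact A.zero_mem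
      by_cases hne : S = top k n m
      · subst hne
        exact hAB u hu hS
      · obtain ⟨p, q, hc, hlt, hp, hq⟩ := exists_move hm (h.card hS h0) hne
        have hpq : p ≠ q := fun h1 => hp (h1 ▸ hq)
        obtain ⟨h1, h2⟩ := h.move hS hpq hc hp hq
        have h3 : (∑ r ∈ insert p (S.erase q), (r.2 : ℕ)) < N := by
          rw [Finset.sum_insert (fun h4 => hp (Finset.mem_of_mem_erase h4)), ← hN,
            ← Finset.add_sum_erase S _ hq]
          omega
        have h4 := ih _ h3 _ rfl _ (hB _ (un_mem hpq hc) u hu) h1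
        rw [← h2]
        exact hA _ (un_mem (Ne.symm hpq) hc.symm) _ h4
  intro S
  exact key _ S rfl

/-- There are highest weight vectors. -/
theorem Rp.exists_top (h : Rp ρ) {m : ℕ} (hm : 2 * m = n) [Nontrivial U] :
    ∃ u, u ≠ 0 ∧ Wt ρ (top k n m) u := by
  by_contra hcon
  push Not at hcon
  have h1 : (⊤ : Submodule ℂ U) ≤ ⊥ := h.le_of_top hm (A := ⊥) (B := ⊤)
    (fun M _ u hu => by
      rw [Submodule.mem_bot] at hu
      rw [hu, map_zero]
      exact Submodule.zero_mem _)
    (fun _ _ _ _ => Submodule.mem_top) fun u _ hu => by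
      rw [Submodule.mem_bot]
      by_contra h0
      exact hcon u h0 hu
  obtain ⟨u, hu⟩ := exists_ne (0 : U)
  exact hu ((Submodule.mem_bot ℂ).1 (h1 Submodule.mem_top))

end Rep

end Pool.Agent.H67M
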